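import Pool.Agent.H32.S6U.UvbStmt
import Pool.Agent.H32.S6U.FullG
import Pool.Agent.H45.K2.PLF

/-!
# The projected family of a plank label

The base coordinate and the fan coordinate of the lines of a plank, in units of its box, are a
family in dimension two on the windows of the plank.
-/

set_option autoImplicit false

namespace Pool.S6U

open Finset Real
open Pool.Agent.H49.Ent Pool.Agent.H32.Dense Pool.STK Pool.KA Pool.KSAT Pool.K2S Pool.KS6
  Pool.KA.Win Pool.KA.TRC Pool.K2S.Rows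

variable {J : ℕ}

/-- Truncation. -/
noncomputable def trn (y : ℝ) : ℝ := if |y| ≤ 1 then y else 0

lemma trn_abs (y : ℝ) : |trn y| ≤ 1 := by
  unfold trn
  split_ifs with h
  · exact h
  · simp

lemma trn_eq {y : ℝ} (h : |y| ≤ 1) : trn y = y := if_pos h

/-- The velocity along the fans, in units of the box. -/
noncomputable def pd (i₀ iu : Fin 3) (l : ℕ) (y : Pln) (d : Fin 3 → ℝ) : ℝ :=
  2 ^ l / 2 * (fu i₀ iu y.e d - fu i₀ iu y.e y.db)

/-- The position along the fans at time `t`, in units of the box. -/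
noncomputable def px (i₀ iu : Fin 3) (n : ℕ) (y : Pln) (t : ℝ) (x : Fin 3 → ℝ) : ℝ :=
  2 ^ n / 2 * (fu i₀ iu y.e x - fu i₀ iu y.e (fun i => y.xb i + t * y.db i))

/-- **The projected family.** -/
noncomputable def prj (F : Fam 3 J) {La : Type} (kap : F.Ω → La) (pl : La → Pln)
    (i₀ iu : Fin 3) (w l : ℕ) : Fam 2 (J - w) where
  Ω := F.Ω
  ζ := La × (ℕ × F.ζ)
  fin := F.fin
  p := F.p
  u := fun ω => ![2 ^ w * F.x1 w ω i₀,
    px i₀ iu (w + l) (pl (kap ω)) ((F.T1 w ω : ℝ) / 2 ^ w) (F.x1 w ω)]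
  d := fun ω => ![F.d ω i₀, trn (pd i₀ iu l (pl (kap ω)) (F.d ω))]
  T := fun ω => F.T ω % 2 ^ (J - w)
  Z := fun ω => (kap ω, (F.T1 w ω, F.Z ω))
  isLaw := F.isLaw
  dir := fun ω i => by
    fin_cases i
    · exact F.dir ω i₀
    · exact trn_abs _
  tim := fun _ => Nat.mod_lt _ (by positivity)

section Prj

variable (F : Fam 3 J) {La : Type} (kap : F.Ω → La) (pl : La → Pln) (i₀ iu : Fin 3) (w l : ℕ)

/-- The time in the window. -/
lemma prj_t (hw : w ≤ J) (ω : F.Ω) :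
    F.t ω = (F.T1 w ω : ℝ) / 2 ^ w + (prj F kap pl i₀ iu w l).t ω * (2 ^ w)⁻¹ :=
  time_split J w (F.T ω) hw

lemma x_eq (hw : w ≤ J) (ω : F.Ω) (i : Fin 3) :
    F.x ω i = F.x1 w ω i + (prj F kap pl i₀ iu w l).t ω * (2 ^ w)⁻¹ * F.d ω i := by
  unfold Fam.x Fam.x1
  rw [prj_t F kap pl i₀ iu w l hw ω]
  ring

/-- The base position of the projected family. -/
lemma prj_x0 (hw : w ≤ J) (ω : F.Ω) :
    (prj F kap pl i₀ iu w l).x ω 0 = 2 ^ w * F.x ω i₀ := by
  have h1 : (prj F kap pl i₀ iu w l).x ω 0 = 2 ^ w * F.x1 w ω i₀ +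
      (prj F kap pl i₀ iu w l).t ω * F.d ω i₀ := rfl
  rw [h1, x_eq F kap pl i₀ iu w l hw ω i₀]
  have : (2 : ℝ) ^ w ≠ 0 := by positivity
  field_simp

/-- The fan position of the projected family. -/
lemma prj_x1 (hw : w ≤ J) {ω : F.Ω} (h : |pd i₀ iu l (pl (kap ω)) (F.d ω)| ≤ 1) :
    (prj F kap pl i₀ iu w l).x ω 1 = px i₀ iu (w + l) (pl (kap ω)) (F.t ω) (F.x ω) := by
  have h1 : (prj F kap pl i₀ iu w l).x ω 1 =
      px i₀ iu (w + l) (pl (kap ω)) ((F.T1 w ω : ℝ) / 2 ^ w) (F.x1 w ω) +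
      (prj F kap pl i₀ iu w l).t ω * trn (pd i₀ iu l (pl (kap ω)) (F.d ω)) := rfl
  rw [h1, trn_eq h]
  unfold px pd fu
  rw [x_eq F kap pl i₀ iu w l hw ω i₀, x_eq F kap pl i₀ iu w l hw ω iu,
    prj_t F kap pl i₀ iu w l hw ω]
  have h2 : (2 : ℝ) ^ w ≠ 0 := by positivity
  rw [pow_add]
  field_simp
  ring

/-- The time deficit of the projected family. -/
lemma prj_Tm (hw : w ≤ J) {e : ℝ} (hT : F.Tm e)
    (hk : ∀ ω ω', 0 < F.p ω → 0 < F.p ω' → slam F w ω = slam F w ω' → kap ω = kap ω') :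
    (prj F kap pl i₀ iu w l).Tm e := by
  have h0 := F.isLaw.nonneg
  have h1 := time_digits F (w := w) (K := J - w) (by omega) hT
  unfold Fam.Tm
  refine h1.trans ?_
  have h2 : CH F.p (fun ω => (F.T1 (w + (J - w)) ω : ℤ)) (slam F w) ≤
      CH F.p (prj F kap pl i₀ iu w l).T (slam F w) := by
    refine CH_mono_left h0 fun ω ω' _ _ h => ?_
    have e1 := Prod.ext_iff.mp h
    have e2 : F.T ω % 2 ^ (J - w) = F.T ω' % 2 ^ (J - w) := e1.1
    have e3 : F.T ω / 2 ^ (J - w) = F.T ω' / 2 ^ (J - w) :=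
      (Prod.ext_iff.mp (Prod.ext_iff.mp e1.2).2).2
    have e4 : F.T ω = F.T ω' := by
      rw [← Nat.div_add_mod (F.T ω) (2 ^ (J - w)), ← Nat.div_add_mod (F.T ω') (2 ^ (J - w)),
        e2, e3]
    simp only [Fam.T1, e4]
  refine h2.trans (CH_mono_cond h0 fun ω ω' p1 p2 h => ?_)
  have e1 := Prod.ext_iff.mp h
  have e2 := Prod.ext_iff.mp e1.2
  have hl : F.l ω = F.l ω' := e1.1
  have hT1 : F.T1 w ω = F.T1 w ω' := e2.2
  have hZ : F.Z ω = F.Z ω' := e2.1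
  have hka := hk ω ω' p1 p2 h
  have hu : F.u ω = F.u ω' := (Prod.ext_iff.mp hl).1
  have hd : F.d ω = F.d ω' := (Prod.ext_iff.mp hl).2
  have hx : F.x1 w ω = F.x1 w ω' := by
    funext i
    unfold Fam.x1
    rw [hu, hd, hT1]
  unfold prj Fam.l
  simp only [hx, hd, hT1, hZ, hka]

end Prj

end Pool.S6U
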