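import Pool.Agent.H32.S6U.Vis
import Pool.Agent.H64.KS6.WfeA

/-!
# The full rows of the projected family
-/

set_option autoImplicit false

namespace Pool.S6U

open Finset Real
open Pool.Agent.H49.Ent Pool.Agent.H32.Dense Pool.STK Pool.KA Pool.KSAT Pool.K2S Pool.KS6
  Pool.KA.Win Pool.KA.TRC Pool.K2S.Rows

variable {J : ℕ}

section Cls

variable (F : Fam 3 J) {La : Type} (kap : F.Ω → La) (pl : La → Pln) (i₀ iu : Fin 3)
  (w l : ℕ)

/-- The cells of the projected family in `R` windows. -/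
noncomputable def cls (g R : ℕ) (ω : F.Ω) (r : Fin R) :
    ((ℕ × (Fin 2 → ℤ)) × (La × (ℕ × F.ζ))) × (Fin 2 → ℤ) :=
  ((prj F kap pl i₀ iu w l).c (0 + r * g) ω, (prj F kap pl i₀ iu w l).X (0 + r * g + 2 * g) ω)

end Cls

/-- **Full rows of the projected family.** -/
theorem rows_one {E : ℝ} (hE : 0 ≤ E) : ∃ C : ℝ, 0 ≤ C ∧ ∀ (J : ℕ) (F : Fam 3 J) (A : F.Ω → Prop) (i₀ iu : Fin 3)
    (w l v g h R : ℕ) (κ e : ℝ), w + (R + 1) * g ≤ v → v + l ≤ J → 0 < Pe F.p A →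
    (∀ B : F.Ω → Prop, Sub B A → Pe F.p A / 2 ≤ Pe F.p B →
      ∀ hl : IsLaw (Pool.Agent.H49.Ent.cond F.p B True), (F.res B True hl).Tm e) →
    (h + 6) * 2 + (h + 3) ≤ g →
    C * (R + 1) ≤ κ →
    ∀ (La : Type) (kap : F.Ω → La) (pl : La → Pln),
    (∀ B : F.Ω → Prop, Sub B A → Real.exp (-κ) * Pe F.p A ≤ Pe F.p B →
      ¬ TubB F i₀ iu l h (fun ω => (pl (kap ω)).e) B) →
    (∀ ω ω', A ω → A ω' → slam F w ω = slam F w ω' → kap ω = kap ω') →
    (∀ ω ω', A ω → A ω' → Fam.pt F ω = Fam.pt F ω' → kap ω = kap ω') →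
    (∀ ω, A ω → |pd i₀ iu l (pl (kap ω)) (F.d ω)| ≤ 1 ∧ |(pl (kap ω)).e| ≤ E) →
    (1 - Real.exp (-(κ / 4))) * (R * (2 * (g * Real.log 2)) - 24 * (g * Real.log 2) -
      R * (4 * e + 9 * (g * Real.log 2) * Real.exp (-(κ / 4)) + C) - C) ≤
      CH (Pool.Agent.H49.Ent.cond F.p A True) ((prj F kap pl i₀ iu w l).X ((R + 1) * g))
        (fun ω => ((prj F kap pl i₀ iu w l).X g ω, (kap ω, F.W ω))) := by
  classical
  obtain ⟨C₀, hC₀, hfull⟩ := full_gen' 2 1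
  have hl2 : 0 < Real.log 2 := Real.log_pos one_lt_two
  have hl21 : Real.log 2 ≤ 1 := by
    have := Real.log_two_lt_d9
    linarith
  obtain ⟨lE, hlE⟩ : ∃ lE : ℝ, lE = Real.log (2 * E + 9) := ⟨_, rfl⟩
  have hl13 : 0 < lE := by rw [hlE]; exact Real.log_pos (by linarith)
  refine ⟨C₀ + 16 * lE + 8, by positivity, ?_⟩
  intro J F A i₀ iu w l v g h R κ e hv hvJ hA hTm hg hκ La kap pl hTub hkS hkpt hkA
  have hp := F.isLaw
  have hw : w ≤ J := by omega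
  have hR0 : (0 : ℝ) ≤ R := Nat.cast_nonneg R
  -- levels
  have hle : ∀ r < R, 0 + r * g + 2 * g ≤ (R + 1) * g := by
    intro r hr
    have h1 : (r + 2) * g ≤ (R + 1) * g := Nat.mul_le_mul_right g (by omega)
    have h2 : (r + 2) * g = r * g + 2 * g := by ring
    omega
  have hlv : ∀ r < R, 0 + r * g + 2 * g + w + l ≤ J := by
    intro r hr
    have := hle r hr
    omega
  -- the labels
  obtain ⟨L, hL⟩ : ∃ L : F.Ω → Fin R → _, L = cls F kap pl i₀ iu w l g R := ⟨_, rfl⟩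
  obtain ⟨δ, hδ⟩ : ∃ δ : ℝ, δ = R * (4 * lE) + 1 := ⟨_, rfl⟩
  have hδ0 : 0 < δ := by rw [hδ]; positivity
  have hδκ : 2 * (2 * δ + Real.log 2) ≤ κ := by
    refine le_trans ?_ hκ
    rw [hδ]
    nlinarith
  have hκ4 : 4 * Real.log 2 ≤ κ := by
    refine le_trans ?_ hκ
    nlinarith
  have hLL : ∀ B : F.Ω → Prop, Sub B A → 0 < Pe F.p B →
      CH (cond F.p B True) L (Fam.pt F) ≤ δ := by
    intro B hBA hB0
    have hlB := isLaw_cond hp hB0
    have hBpos : ∀ ω, 0 < cond F.p B True ω → A ω := by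
      intro ω hω
      have := ((cond_pos_iff hp.nonneg B True ω).1 hω).2
      exact hBA ω (by simpa using this)
    have hdet : ∀ ω ω', 0 < cond F.p B True ω → 0 < cond F.p B True ω' →
        Fam.pt F ω = Fam.pt F ω' → kap ω = kap ω' ∧ F.X J ω = F.X J ω' ∧ F.W ω = F.W ω' := by
      intro ω ω' p1 p2 hh
      have h1 := Prod.ext_iff.mp hh
      exact ⟨hkpt ω ω' (hBpos ω p1) (hBpos ω' p2) hh, h1.1, h1.2⟩
    have key := CH_pi_le hlB.nonneg (Fam.pt F) R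
      (fun r => fun ω => cls F kap pl i₀ iu w l g R ω r) (c := 4 * lE) (by
        intro r
        have a1 := prj_c_vis F kap pl i₀ iu w l hw (P := J) (j := 0 + r * g)
          (by have := hlv r r.2; omega) le_rfl hE hkA hlB hBpos (Fam.pt F) hdet
        have a2 := prj_X_vis F kap pl i₀ iu w l hw (P := J) (j := 0 + r * g + 2 * g)
          (by have := hlv r r.2; omega) hE hkA hlB hBpos (Fam.pt F) (fun ω ω' p1 p2 hh => by
            obtain ⟨b1, b2, b3⟩ := hdet ω ω' p1 p2 hh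
            exact ⟨b1, b2, (Prod.ext_iff.mp b3).1⟩)
        have a3 := CH_subadd hlB.nonneg ((prj F kap pl i₀ iu w l).c (0 + r * g))
          ((prj F kap pl i₀ iu w l).X (0 + r * g + 2 * g)) (Fam.pt F)
        refine le_trans a3 ?_
        rw [← hlE] at a1 a2
        linarith)
    rw [hL, hδ]
    refine le_trans key ?_
    linarith
  -- the relation
  obtain ⟨rel, hrel⟩ : ∃ rel : (Fin 2 → ℝ) → ((Fin 2 → ℝ) × (Fin 1 → Fin 2 → ℝ)) → Prop,
      rel = fun D s => ∃ c : Fin 1 → ℝ, ∀ j, |D j - s.1 j - ∑ i, c i * s.2 i j| ≤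
        4 / 2 ^ (h + 3) := ⟨_, rfl⟩
  have hno : ∀ B : F.Ω → Prop, Sub B A → Real.exp (-κ) * Pe F.p A ≤ Pe F.p B →
      ¬ Fn (prj F kap pl i₀ iu w l).d (Fam.pt F) rel B := by
    intro B hB hPB hfn
    rw [hrel] at hfn
    exact hTub B hB hPB (tub_of_fn F kap pl i₀ iu w l hB hkpt (fun ω hω => (hkA ω hω).1) hfn)
  have hno' : ¬ Fn (prj F kap pl i₀ iu w l).d (Fam.pt F) rel A := by
    refine hno A (fun _ h => h) ?_
    have : Real.exp (-κ) ≤ 1 := by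
      rw [Real.exp_le_one_iff]
      linarith
    nlinarith
  -- cleaning
  obtain ⟨s1, s2⟩ := Stb.refine hp (c := (prj F kap pl i₀ iu w l).d) (g := Fam.pt F) (l := L)
    (r := rel) (κ := κ) (Or.inr hno) hno' hA hδ0 hLL (by linarith)
  obtain ⟨κ₁, hκ₁⟩ : ∃ κ₁, κ₁ = κ - (2 * δ + Real.log 2) := ⟨_, rfl⟩
  rw [← hκ₁] at s1
  have hκ₁' : κ / 2 ≤ κ₁ := by rw [hκ₁]; linarith
  obtain ⟨N₁, hN₁⟩ : ∃ N₁ : F.Ω → Prop, N₁ = Pop (cond F.p A True)
    (prj F kap pl i₀ iu w l).d (fun ω => (Fam.pt F ω, L ω)) rel (Real.exp (-(κ₁ / 2))) :=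
    ⟨_, rfl⟩
  obtain ⟨c1, c2⟩ := Stb.clean hp (by linarith : 2 * Real.log 2 ≤ κ₁) hA s1 s2 hN₁
  have c1' := Stb.clean_exp hp hA s1 s2 hN₁
  obtain ⟨ρ, hρ⟩ : ∃ ρ, ρ = Real.exp (-(κ / 4)) := ⟨_, rfl⟩
  have hρ0 : 0 < ρ := by rw [hρ]; exact Real.exp_pos _
  have hρ1 : Real.exp (-(κ₁ / 2)) ≤ ρ := by
    rw [hρ]
    exact Real.exp_le_exp.2 (by linarith)
  have d1 := Pe_diff_ge (c1'.trans (mul_le_mul_of_nonneg_right hρ1 hA.le))
  obtain ⟨A₁, hA₁⟩ : ∃ A₁ : F.Ω → Prop, A₁ = fun ω => A ω ∧ ¬ N₁ ω := ⟨_, rfl⟩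
  rw [← hA₁] at c2 d1
  have hsub : Sub A₁ A := by
    rw [hA₁]
    exact fun ω h => h.1
  have hhalf : Pe F.p A / 2 ≤ Pe F.p A₁ := by
    have h1 := Pe_diff c1
    rw [← hA₁] at h1
    have : Real.exp (-Real.log 2) = 1 / 2 := by
      rw [Real.exp_neg, Real.exp_log (by norm_num)]
      norm_num
    rw [this] at h1
    linarith
  have hA₁0 : 0 < Pe F.p A₁ := lt_of_lt_of_le (by linarith) hhalf
  have hl := isLaw_cond hp hA₁0
  have hpos : ∀ ω, 0 < cond F.p A₁ True ω → A ω := by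
    intro ω hω
    have := ((cond_pos_iff hp.nonneg A₁ True ω).1 hω).2
    exact hsub ω (by simpa using this)
  -- the projected family of the cleaned family
  have hTm' : (prj (F.res A₁ True hl) kap pl i₀ iu w l).Tm e :=
    prj_Tm (F.res A₁ True hl) kap pl i₀ iu w l hw (hTm A₁ hsub hhalf hl)
      (fun ω ω' p1 p2 hs => hkS ω ω' (hpos ω p1) (hpos ω' p2) hs)
  have key := hfull (J - w) (prj (F.res A₁ True hl) kap pl i₀ iu w l) Unit _
    (fun _ => ()) (fun ω => (Fam.pt F ω, L ω)) 0 g (h + 3) R e ρ (by omega) hTm'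
    (fun _ _ _ _ _ => rfl) (fun _ _ _ _ _ => rfl)
    (by
      intro r hr ω ω' _ _ hs
      have h1 : L ω = L ω' := (Prod.ext_iff.mp hs).2
      rw [hL] at h1
      exact (Prod.ext_iff.mp (congrFun h1 ⟨r, hr⟩)).1)
    (by
      intro r hr ω ω' _ _ hs
      have h1 : L ω = L ω' := (Prod.ext_iff.mp hs).2
      rw [hL] at h1
      exact (Prod.ext_iff.mp (congrFun h1 ⟨r, hr⟩)).2)
    (by
      intro r hr ω ω' _ _ hs
      have h1 : Fam.pt F ω = Fam.pt F ω' := (Prod.ext_iff.mp hs).1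
      have h2 : F.T ω = F.T ω' := (Prod.ext_iff.mp (Prod.ext_iff.mp h1).2).1
      change (F.T ω % 2 ^ (J - w)) / _ = (F.T ω' % 2 ^ (J - w)) / _
      rw [h2])
    (by omega) (by
      calc (h + 3 + 3) * (1 + 1) + (h + 3) = (h + 6) * 2 + (h + 3) := by ring
        _ ≤ g := hg)
    (by
      have h1 := c2.mono_rho hl hρ1
      rw [hrel] at h1
      exact h1)
  have e0 : 0 + (R + 1) * g = (R + 1) * g := by ring
  have e00 : 0 + g = g := by ring
  rw [e0, e00] at key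
  have k1 : CH (cond F.p A₁ True) ((prj F kap pl i₀ iu w l).X ((R + 1) * g))
      (fun ω => ((prj F kap pl i₀ iu w l).X g ω, ((), (prj F kap pl i₀ iu w l).W ω))) ≤
      CH (cond F.p A₁ True) ((prj F kap pl i₀ iu w l).X ((R + 1) * g))
        (fun ω => ((prj F kap pl i₀ iu w l).X g ω, (kap ω, F.W ω))) := by
    refine CH_mono_cond hl.nonneg fun ω ω' _ _ hs0 => ?_
    have hs := (Prod.ext_iff.mp hs0).2
    have h1 := (Prod.ext_iff.mp hs).2
    have h2 := Prod.ext_iff.mp h1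
    have h3 : F.T ω % 2 ^ (J - w) = F.T ω' % 2 ^ (J - w) := h2.1
    have h4 := Prod.ext_iff.mp h2.2
    have h5 : kap ω = kap ω' := h4.1
    have h6 := Prod.ext_iff.mp h4.2
    have h7 : F.T ω / 2 ^ (J - w) = F.T ω' / 2 ^ (J - w) := h6.1
    have h8 : F.Z ω = F.Z ω' := h6.2
    have h9 : F.T ω = F.T ω' := by
      rw [← Nat.div_add_mod (F.T ω) (2 ^ (J - w)), ← Nat.div_add_mod (F.T ω') (2 ^ (J - w)),
        h3, h7]
    exact Prod.ext (Prod.ext_iff.mp hs0).1 (Prod.ext h5 (Prod.ext h9 h8))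
  have k2 := CH_event hp hsub hA ((prj F kap pl i₀ iu w l).X ((R + 1) * g))
    (fun ω => ((prj F kap pl i₀ iu w l).X g ω, (kap ω, F.W ω)))
  refine le_trans ?_ k2
  have k3 : 1 - ρ ≤ Pe F.p A₁ / Pe F.p A := by
    rw [le_div_iff₀ hA]
    exact d1
  have hρ2 : ρ ≤ 1 := by
    rw [hρ, Real.exp_le_one_iff]
    linarith
  obtain ⟨H1, hH1⟩ : ∃ H1, H1 = CH (cond F.p A₁ True)
    ((prj F kap pl i₀ iu w l).X ((R + 1) * g))
      (fun ω => ((prj F kap pl i₀ iu w l).X g ω, (kap ω, F.W ω))) := ⟨_, rfl⟩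
  have hH0 : 0 ≤ H1 := by rw [hH1]; exact CH_nonneg hl.nonneg _ _
  rw [← hH1] at k1 ⊢
  have k4 : R * (2 * (g * Real.log 2)) - 24 * (g * Real.log 2) -
      R * (4 * e + 9 * (g * Real.log 2) * ρ + (C₀ + 16 * lE + 8)) -
        (C₀ + 16 * lE + 8) ≤ H1 := by
    refine le_trans ?_ (le_trans key k1)
    push_cast
    have : (0 : ℝ) ≤ R * (16 * lE + 8) := by positivity
    nlinarith
  rw [← hρ]
  calc _ ≤ (1 - ρ) * H1 := mul_le_mul_of_nonneg_left k4 (by linarith)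
    _ ≤ _ := mul_le_mul_of_nonneg_right k3 hH0

end Pool.S6U
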