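import Pool.Agent.H32.S6U.Rows

/-!
# The full rows of the projected family, asymptotic form
-/

set_option autoImplicit false

namespace Pool.S6U

open Finset Real
open Pool.Agent.H49.Ent Pool.Agent.H32.Dense Pool.STK Pool.KA Pool.KSAT Pool.K2S Pool.KS6
  Pool.KA.Win Pool.KA.TRC Pool.K2S.Rows

variable {J : ℕ}

lemma mul_exp_le' {a J : ℝ} (ha : 0 < a) : J * Real.exp (-(a * J)) ≤ 1 / a := by
  have h1 : a * J ≤ Real.exp (a * J) := by
    have := Real.add_one_le_exp (a * J)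
    linarith
  rw [Real.exp_neg, ← div_eq_mul_inv, div_le_div_iff₀ (Real.exp_pos _) ha]
  linarith

/-- **Full rows of the projected family**, beyond its cell at some precision. -/
theorem rows_asy {η E : ℝ} (hη : 0 < η) (hE : 0 ≤ E) : ∃ h₀ : ℝ, 0 < h₀ ∧ ∀ κ : ℝ, 0 < κ →
    ∃ τ > 0, ∃ J₁ : ℕ, ∀ J ≥ J₁, ∀ (F : Fam 3 J) (A : F.Ω → Prop),
    F.Tr → F.Tm (τ * J) → F.Rb (τ * J) → Real.exp (-(τ * J)) ≤ Pe F.p A →
    ∀ (i₀ iu : Fin 3) (w l n : ℕ), w + n + l ≤ J →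
    ∀ (La : Type) (kap : F.Ω → La) (pl : La → Pln),
    (∀ B : F.Ω → Prop, Sub B A → Real.exp (-(κ * J)) * Pe F.p A ≤ Pe F.p B →
      ¬ TubB F i₀ iu l ⌊h₀ * J⌋₊ (fun ω => (pl (kap ω)).e) B) →
    (∀ ω ω', A ω → A ω' → slam F w ω = slam F w ω' → kap ω = kap ω') →
    (∀ ω ω', A ω → A ω' → Fam.pt F ω = Fam.pt F ω' → kap ω = kap ω') →
    (∀ ω, A ω → |pd i₀ iu l (pl (kap ω)) (F.d ω)| ≤ 1 ∧ |(pl (kap ω)).e| ≤ E) →
    ∃ g j : ℕ, g ≤ j ∧ j ≤ n ∧ 2 * (n * Real.log 2) - η * J ≤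
      CH (Pool.Agent.H49.Ent.cond F.p A True) ((prj F kap pl i₀ iu w l).X j)
        (fun ω => ((prj F kap pl i₀ iu w l).X g ω, (kap ω, F.W ω))) := by
  classical
  obtain ⟨C, hC, hrows⟩ := rows_one hE
  have hl2 : 0 < Real.log 2 := Real.log_pos one_lt_two
  have hl21 : Real.log 2 ≤ 1 := by
    have := Real.log_two_lt_d9
    linarith
  obtain ⟨γ, hγ⟩ : ∃ γ : ℝ, γ = min (η / 200) 1 := ⟨_, rfl⟩
  have hγ0 : 0 < γ := by rw [hγ]; exact lt_min (by positivity) one_pos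
  have hγη : 200 * γ ≤ η := by
    have : γ ≤ η / 200 := by rw [hγ]; exact min_le_left _ _
    linarith
  have hγ1 : γ ≤ 1 := by rw [hγ]; exact min_le_right _ _
  refine ⟨γ / 6, by positivity, fun κ hκ => ?_⟩
  obtain ⟨τ, hτ⟩ : ∃ τ : ℝ, τ = γ * η / 1000 := ⟨_, rfl⟩
  have hτ0 : 0 < τ := by rw [hτ]; positivity
  obtain ⟨K, hK⟩ : ∃ K : ℝ, K = 2 * C / γ + C + 44 / κ := ⟨_, rfl⟩
  have hK0 : 0 ≤ K := by rw [hK]; positivity
  obtain ⟨J₁, hJ₁⟩ := exists_nat_gt (4 * K / η + 40 / γ + 1 / τ + 2 * C / (γ * κ) + 4 / κ + 1)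
  refine ⟨τ, hτ0, J₁, ?_⟩
  intro J hJ F A hTr hTm hRb hPA i₀ iu w l n hn La kap pl hTub hkS hkpt hkA
  have hp := F.isLaw
  have hA0 : 0 < Pe F.p A := lt_of_lt_of_le (Real.exp_pos _) hPA
  have hq := isLaw_cond hp hA0
  have hJr : 4 * K / η + 40 / γ + 1 / τ + 2 * C / (γ * κ) + 4 / κ + 1 < J :=
    hJ₁.trans_le (by exact_mod_cast hJ)
  have q1 : 0 ≤ 4 * K / η := by positivity
  have q2 : 0 ≤ 40 / γ := by positivity
  have q3 : 0 ≤ 1 / τ := by positivity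
  have q4 : 0 ≤ 2 * C / (γ * κ) := by positivity
  have q5 : 0 ≤ 4 / κ := by positivity
  have hJ0 : (0 : ℝ) < J := by linarith
  have r1 : 4 * K ≤ η * J := by
    have : 4 * K / η < J := by linarith
    rw [div_lt_iff₀ hη] at this
    linarith
  have r2 : 40 ≤ γ * J := by
    have : 40 / γ < J := by linarith
    rw [div_lt_iff₀ hγ0] at this
    linarith
  have r3 : 1 ≤ τ * J := by
    have : 1 / τ < J := by linarith
    rw [div_lt_iff₀ hτ0] at this
    linarith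
  have r4 : 2 * C / γ ≤ κ * J := by
    have : 2 * C / (γ * κ) < J := by linarith
    rw [div_lt_iff₀ (by positivity)] at this
    rw [div_le_iff₀ hγ0]
    nlinarith
  have hn0 : (0 : ℝ) ≤ n := Nat.cast_nonneg n
  -- the blocks
  obtain ⟨g, hg⟩ : ∃ g : ℕ, g = ⌊γ * J⌋₊ := ⟨_, rfl⟩
  have hg1 : (g : ℝ) ≤ γ * J := by rw [hg]; exact Nat.floor_le (by positivity)
  have hg2 : γ * J < g + 1 := by rw [hg]; exact Nat.lt_floor_add_one _
  obtain ⟨h, hh⟩ : ∃ h : ℕ, h = ⌊γ / 6 * J⌋₊ := ⟨_, rfl⟩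
  have hh1 : (h : ℝ) ≤ γ / 6 * J := by rw [hh]; exact Nat.floor_le (by positivity)
  have hgpos : 0 < g := by
    by_contra h0
    have : g = 0 := by omega
    rw [this] at hg2
    norm_num at hg2
    linarith
  have hg0 : (0 : ℝ) < g := by exact_mod_cast hgpos
  by_cases hsm : n < g
  · refine ⟨0, 0, le_rfl, Nat.zero_le _, ?_⟩
    refine le_trans ?_ (CH_nonneg hq.nonneg _ _)
    have h1 : (n : ℝ) ≤ g := by exact_mod_cast hsm.le
    have h2 : (n : ℝ) * Real.log 2 ≤ γ * J := by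
      calc (n : ℝ) * Real.log 2 ≤ (n : ℝ) * 1 := mul_le_mul_of_nonneg_left hl21 hn0
        _ ≤ γ * J := by linarith
    have h4 : 200 * γ * J ≤ η * J := mul_le_mul_of_nonneg_right hγη hJ0.le
    have h5 : 0 ≤ γ * J := by positivity
    linarith
  push Not at hsm
  obtain ⟨R, hR⟩ : ∃ R, R + 1 = n / g := by
    have h1 : 1 ≤ n / g := (Nat.one_le_div_iff hgpos).2 hsm
    exact ⟨n / g - 1, by omega⟩
  have hRg : (R + 1) * g ≤ n := by rw [hR]; exact Nat.div_mul_le_self _ _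
  have hRg2 : n < (R + 2) * g := by
    have h1 := Nat.lt_div_mul_add hgpos (a := n)
    rw [← hR] at h1
    have h2 : (R + 2) * g = (R + 1) * g + g := by ring
    omega
  have hRgr : ((R : ℝ) + 1) * g ≤ n := by exact_mod_cast hRg
  have hRgr2 : (n : ℝ) ≤ ((R : ℝ) + 2) * g := by exact_mod_cast hRg2.le
  have hvJr : (n : ℝ) ≤ J := by
    have h1 : n ≤ J := by omega
    exact_mod_cast h1
  have hR0 : (0 : ℝ) ≤ R := Nat.cast_nonneg R
  have hR1 : ((R : ℝ) + 1) * γ ≤ 2 := by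
    have h1 : γ * J / 2 ≤ g := by linarith
    have h2 : ((R : ℝ) + 1) * (γ * J / 2) ≤ J := by
      calc ((R : ℝ) + 1) * (γ * J / 2) ≤ (R + 1) * g :=
            mul_le_mul_of_nonneg_left h1 (by linarith)
        _ ≤ J := by linarith
    by_contra hcon
    push Not at hcon
    nlinarith
  -- the time deficits
  have hTm' : ∀ B : F.Ω → Prop, Sub B A → Pe F.p A / 2 ≤ Pe F.p B →
      ∀ hl : IsLaw (cond F.p B True), (F.res B True hl).Tm ((5 * τ + 2 * τ) * J) := by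
    intro B hB hPB hl
    refine Pool.S6K.Wfe.res_Tm hτ0.le (by linarith) hTr hTm hRb ?_ hl
    refine le_trans ?_ hPB
    have h1 : Real.exp (-((2 * τ) * J)) ≤ Real.exp (-(τ * J)) / 2 := by
      rw [le_div_iff₀ (by norm_num)]
      have h2 : (2 : ℝ) = Real.exp (Real.log 2) := by rw [Real.exp_log (by norm_num)]
      calc Real.exp (-((2 * τ) * J)) * 2 = Real.exp (-((2 * τ) * J)) *
            Real.exp (Real.log 2) := by rw [← h2]
        _ = Real.exp (-((2 * τ) * J) + Real.log 2) := by rw [← Real.exp_add]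
        _ ≤ _ := Real.exp_le_exp.2 (by linarith)
    linarith
  have hκJ : C * ((R : ℝ) + 1) ≤ κ * J := by
    refine le_trans ?_ r4
    rw [le_div_iff₀ hγ0]
    nlinarith
  have t1 := hrows J F A i₀ iu w l (w + n) g h R (κ * J) ((5 * τ + 2 * τ) * J) (by omega) (by omega)
    hA0 hTm' (by
      have h1 : 3 * (h : ℝ) + 15 ≤ g := by
        have h2 : 3 * (γ / 6 * J) = γ * J / 2 := by ring
        have h3 : 3 * (h : ℝ) ≤ γ * J / 2 := by rw [← h2]; linarith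
        linarith
      have h4 : 3 * h + 15 ≤ g := by exact_mod_cast h1
      omega)
    hκJ La kap pl (by rw [hh]; exact hTub) hkS hkpt hkA
  refine ⟨g, (R + 1) * g, Nat.le_mul_of_pos_left _ (by omega), hRg, ?_⟩
  refine le_trans ?_ t1
  -- arithmetic
  obtain ⟨ρ, hρ⟩ : ∃ ρ, ρ = Real.exp (-(κ * J / 4)) := ⟨_, rfl⟩
  have hρ0 : 0 < ρ := by rw [hρ]; exact Real.exp_pos _
  have hρ1 : ρ ≤ 1 := by
    rw [hρ, Real.exp_le_one_iff]
    have : 0 ≤ κ * J / 4 := by positivity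
    linarith
  have hρJ : J * ρ ≤ 4 / κ := by
    have h1 := mul_exp_le' (a := κ / 4) (J := J) (by positivity)
    have h2 : -(κ / 4 * J) = -(κ * J / 4) := by ring
    rw [h2, ← hρ] at h1
    refine h1.trans (le_of_eq ?_)
    field_simp
  rw [← hρ]
  -- bounds for the single terms
  obtain ⟨G, hG⟩ : ∃ G : ℝ, G = g * Real.log 2 := ⟨_, rfl⟩
  have hG0 : 0 ≤ G := by rw [hG]; positivity
  have hG1 : G ≤ γ * J := by
    rw [hG]
    calc (g : ℝ) * Real.log 2 ≤ g * 1 := mul_le_mul_of_nonneg_left hl21 hg0.le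
      _ ≤ γ * J := by linarith
  rw [← hG]
  have s1 : (R : ℝ) * G ≤ J := by
    rw [hG]
    calc (R : ℝ) * (g * Real.log 2) ≤ R * (g * 1) :=
          mul_le_mul_of_nonneg_left (mul_le_mul_of_nonneg_left hl21 hg0.le) hR0
      _ ≤ J := by nlinarith
  have s2 : (n : ℝ) * Real.log 2 ≤ R * G + 2 * G := by
    rw [hG]
    calc (n : ℝ) * Real.log 2 ≤ (((R : ℝ) + 2) * g) * Real.log 2 :=
          mul_le_mul_of_nonneg_right hRgr2 hl2.le
      _ = _ := by ring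
  have s3 : (R : ℝ) * ((5 * τ + 2 * τ) * J) ≤ η * J / 50 := by
    have h1 : (R : ℝ) * (7 * τ) ≤ η / 50 := by
      rw [hτ]
      nlinarith
    calc (R : ℝ) * ((5 * τ + 2 * τ) * J) = (R * (7 * τ)) * J := by ring
      _ ≤ η / 50 * J := mul_le_mul_of_nonneg_right h1 hJ0.le
      _ = _ := by ring
  have s4 : (R : ℝ) * (9 * G * ρ) ≤ 36 / κ := by
    calc (R : ℝ) * (9 * G * ρ) = 9 * ((R * G) * ρ) := by ring
      _ ≤ 9 * (J * ρ) := by
        have := mul_le_mul_of_nonneg_right s1 hρ0.le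
        linarith
      _ ≤ 9 * (4 / κ) := by linarith
      _ = 36 / κ := by ring
  have s5 : (R : ℝ) * C ≤ 2 * C / γ := by
    rw [le_div_iff₀ hγ0]
    nlinarith
  have s6 : ρ * (R * (2 * G)) ≤ 8 / κ := by
    calc ρ * (R * (2 * G)) = 2 * ((R * G) * ρ) := by ring
      _ ≤ 2 * (J * ρ) := by
        have := mul_le_mul_of_nonneg_right s1 hρ0.le
        linarith
      _ ≤ 2 * (4 / κ) := by linarith
      _ = 8 / κ := by ring
  have s9 : γ * J ≤ η * J / 200 := by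
    have := mul_le_mul_of_nonneg_right hγη hJ0.le
    linarith
  have s10 : 0 ≤ ρ * (24 * G + R * (4 * ((5 * τ + 2 * τ) * J) + 9 * G * ρ + C) + C) := by
    positivity
  have t1' : R * (2 * G) - 24 * G - R * (4 * ((5 * τ + 2 * τ) * J) + 9 * G * ρ + C) - C -
      ρ * (R * (2 * G)) ≤ (1 - ρ) * (R * (2 * G) - 24 * G -
      R * (4 * ((5 * τ + 2 * τ) * J) + 9 * G * ρ + C) - C) := by
    linarith
  have u1 : (R : ℝ) * (4 * ((5 * τ + 2 * τ) * J) + 9 * G * ρ + C) ≤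
      4 * (η * J / 50) + 36 / κ + 2 * C / γ := by
    have : (R : ℝ) * (4 * ((5 * τ + 2 * τ) * J) + 9 * G * ρ + C) =
      4 * (R * ((5 * τ + 2 * τ) * J)) + R * (9 * G * ρ) + R * C := by ring
    rw [this]
    linarith
  have u3 : (36 : ℝ) / κ + 8 / κ = 44 / κ := by ring
  refine le_trans ?_ t1'
  linarith

end Pool.S6U
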