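import Pool.Agent.H32.S6U.Vis

/-!
# The second plank: slopes and cells
-/

set_option autoImplicit false

namespace Pool.S6U

open Finset Real
open Pool.Agent.H49.Ent Pool.Agent.H32.Dense Pool.STK Pool.KA Pool.KSAT Pool.K2S Pool.KS6
  Pool.KA.Win Pool.KA.TRC Pool.K2S.Rows

variable {J : ℕ}

section Slo

variable (F : Fam 3 J) {La : Type} (kap : F.Ω → La) (pl : La → Pln) (i₀ iu iN : Fin 3)
  (w l : ℕ) {A : F.Ω → Prop}

/-- Two planks whose slopes differ put the base velocities into tubes. -/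
lemma slope_tub {v l' P' h : ℕ} (hl : l ≤ l')
    (hkpt : ∀ ω ω', A ω → A ω' → Fam.pt F ω = Fam.pt F ω' → kap ω = kap ω')
    (hkI : ∀ ω, A ω → Inc i₀ iu iN w l P' 2 (pl (kap ω)) (F.t ω) (F.x ω) (F.d ω))
    {z : F.Ω → Pln} (hzpt : ∀ ω ω', A ω → A ω' → Fam.pt F ω = Fam.pt F ω' → z ω = z ω')
    (hzI : ∀ ω, A ω → Inc i₀ iu iN v l' P' 2 (z ω) (F.t ω) (F.x ω) (F.d ω)) :
    TubB F i₀ iu l h (fun ω => (pl (kap ω)).e)
      (fun ω => A ω ∧ 4 * 2 ^ h / 2 ^ l < |(z ω).e - (pl (kap ω)).e|) := by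
  obtain ⟨φ, hφ, -⟩ := exists_fn (Fam.pt F) (fun ω =>
    (fu i₀ iu (pl (kap ω)).e (pl (kap ω)).db - fu i₀ iu (z ω).e (z ω).db) /
      ((z ω).e - (pl (kap ω)).e)) A (0 : ℝ) (fun ω ω' p1 p2 e => by
        simp only [hkpt ω ω' p1 p2 e, hzpt ω ω' p1 p2 e])
  refine ⟨fun _ => 1, fun _ => 0, φ, fun _ _ => Or.inl (by norm_num), fun ω hω => ?_⟩
  obtain ⟨hA, hN⟩ := hω
  have h1 := (hkI ω hA).vu
  have h2 := (hzI ω hA).vu
  rw [← hφ ω hA]
  have hl0 : (0 : ℝ) < 2 ^ l := by positivity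
  have hh0 : (0 : ℝ) < 2 ^ h := by positivity
  have h3 : (2 : ℝ) / 2 ^ l' ≤ 2 / 2 ^ l :=
    div_le_div_of_nonneg_left (by norm_num) hl0 (pow_le_pow_right₀ (by norm_num) hl)
  have hpos : 0 < |(z ω).e - (pl (kap ω)).e| := lt_of_le_of_lt (by positivity) hN
  have hne : (z ω).e - (pl (kap ω)).e ≠ 0 := abs_pos.1 hpos
  have e1 : (1 : ℝ) * F.d ω i₀ + 0 * (2 ^ l * (F.d ω iu - (pl (kap ω)).e * F.d ω i₀)) -
      (fu i₀ iu (pl (kap ω)).e (pl (kap ω)).db - fu i₀ iu (z ω).e (z ω).db) /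
      ((z ω).e - (pl (kap ω)).e) =
      ((fu i₀ iu (pl (kap ω)).e (F.d ω) - fu i₀ iu (pl (kap ω)).e (pl (kap ω)).db) -
        (fu i₀ iu (z ω).e (F.d ω) - fu i₀ iu (z ω).e (z ω).db)) /
      ((z ω).e - (pl (kap ω)).e) := by
    rw [eq_div_iff hne, sub_mul, div_mul_cancel₀ _ hne]
    unfold fu
    ring
  rw [e1, abs_div, div_le_iff₀ hpos]
  refine (abs_sub _ _).trans ?_
  have h4 : 4 / 2 ^ l ≤ 1 / 2 ^ h * |(z ω).e - (pl (kap ω)).e| := by
    rw [one_div, ← div_eq_inv_mul, le_div_iff₀ hh0]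
    refine le_trans (le_of_eq ?_) hN.le
    ring
  have h5 : (4 : ℝ) / 2 ^ l = 2 / 2 ^ l + 2 / 2 ^ l := by ring
  linarith

/-- The cells of the projected family, given the second plank. -/
lemma snd_term {v l' P' h j : ℕ} (hw : w ≤ J) (hl : l ≤ l') (hj : w + j ≤ v)
    (hkI : ∀ ω, A ω → Inc i₀ iu iN w l P' 2 (pl (kap ω)) (F.t ω) (F.x ω) (F.d ω))
    {z : F.Ω → Pln} (hzI : ∀ ω, A ω → Inc i₀ iu iN v l' P' 2 (z ω) (F.t ω) (F.x ω) (F.d ω))
    (hA1 : ∀ ω, A ω → |pd i₀ iu l (pl (kap ω)) (F.d ω)| ≤ 1) (hA0 : 0 < Pe F.p A) {ε : ℝ}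
    (hε : Pe F.p (fun ω => A ω ∧ 4 * 2 ^ h / 2 ^ l < |(z ω).e - (pl (kap ω)).e|) ≤
      ε * Pe F.p A) :
    CH (Pool.Agent.H49.Ent.cond F.p A True) ((prj F kap pl i₀ iu w l).X j)
      (fun ω => (z ω, kap ω, F.W ω)) ≤
      Real.log 2 + 2 * ((h + 6) * Real.log 2 + ε * ((j + 5) * Real.log 2)) := by
  classical
  have hl2 : 0 < Real.log 2 := Real.log_pos one_lt_two
  obtain ⟨q, hq⟩ : ∃ q, q = Pool.Agent.H49.Ent.cond F.p A True := ⟨_, rfl⟩
  have hqL : IsLaw q := by rw [hq]; exact isLaw_cond F.isLaw hA0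
  have hqA : ∀ ω, 0 < q ω → A ω := by
    intro ω hω
    rw [hq] at hω
    have := ((cond_pos_iff F.isLaw.nonneg A True ω).1 hω).2
    simpa using this
  rw [← hq]
  obtain ⟨Nb, hNb⟩ : ∃ Nb : F.Ω → Prop, Nb = fun ω =>
    4 * 2 ^ h / 2 ^ l < |(z ω).e - (pl (kap ω)).e| := ⟨_, rfl⟩
  have d1 := CH_le_add hqL.nonneg ((prj F kap pl i₀ iu w l).X j) Nb
    (fun ω => (z ω, kap ω, F.W ω))
  have d2 : CH q Nb (fun ω => (z ω, kap ω, F.W ω)) ≤ Real.log 2 := by
    refine (CH_le_card hqL.nonneg hqL.sum_one Nb _ (fun _ => (Finset.univ : Finset Prop))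
      fun ω _ => Finset.mem_univ _).trans ?_
    rw [Ex_const hqL.sum_one, Finset.card_univ, Fintype.card_prop]
    norm_num
  have d3 := CH_le_vec hqL.nonneg hqL.sum_one ((prj F kap pl i₀ iu w l).X j)
    (fun ω => (Nb ω, (z ω, kap ω, F.W ω)))
    (fun ω => if Nb ω then 2 ^ (j + 3) else 2 ^ (h + 4)) (by
    intro ω ω' p1 p2 e k
    have a := hqA ω p1
    have a' := hqA ω' p2
    have e1 := Prod.ext_iff.mp e
    have e2 := Prod.ext_iff.mp e1.2
    have e3 := Prod.ext_iff.mp e2.2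
    have hz : z ω = z ω' := e2.1
    have hk : kap ω = kap ω' := e3.1
    have hT : F.T ω = F.T ω' := (Prod.ext_iff.mp e3.2).1
    have ht : F.t ω = F.t ω' := by
      unfold Fam.t
      rw [hT]
    have x0 := (hzI ω a).pe
    have x0' := (hzI ω' a').pe
    rw [← hz, ← ht] at x0'
    have xx : |F.x ω i₀ - F.x ω' i₀| ≤ 4 / 2 ^ v := by
      have e4 : F.x ω i₀ - F.x ω' i₀ = (F.x ω i₀ - ((z ω).xb i₀ + F.t ω * (z ω).db i₀)) -
        (F.x ω' i₀ - ((z ω).xb i₀ + F.t ω * (z ω).db i₀)) := by ring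
      rw [e4]
      refine (abs_sub _ _).trans ((add_le_add x0 x0').trans (le_of_eq ?_))
      ring
    have pj : (2 : ℝ) ^ j * 2 ^ w ≤ 2 ^ v := by
      rw [← pow_add]
      exact pow_le_pow_right₀ (by norm_num) (by omega)
    have pv : (0 : ℝ) < 2 ^ v := by positivity
    have pj0 : (1 : ℝ) ≤ 2 ^ j := one_le_pow₀ (by norm_num)
    have ph0 : (1 : ℝ) ≤ 2 ^ h := one_le_pow₀ (by norm_num)
    match k with
    | 0 =>
      have h1 : |2 ^ j * (prj F kap pl i₀ iu w l).x ω 0 -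
          2 ^ j * (prj F kap pl i₀ iu w l).x ω' 0| ≤ 4 := by
        rw [prj_x0 F kap pl i₀ iu w l hw, prj_x0 F kap pl i₀ iu w l hw]
        have e4 : (2 : ℝ) ^ j * (2 ^ w * F.x ω i₀) - 2 ^ j * (2 ^ w * F.x ω' i₀) =
            2 ^ j * 2 ^ w * (F.x ω i₀ - F.x ω' i₀) := by ring
        rw [e4, abs_mul, abs_of_pos (by positivity)]
        calc (2 : ℝ) ^ j * 2 ^ w * |F.x ω i₀ - F.x ω' i₀| ≤ 2 ^ v * (4 / 2 ^ v) :=
              mul_le_mul pj xx (abs_nonneg _) pv.le
          _ = 4 := by field_simp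
      refine (floor_diff h1).trans ?_
      split_ifs
      · rw [pow_add]
        linarith
      · rw [pow_add]
        linarith
    | 1 =>
      have p1' := prj_x1 F kap pl i₀ iu w l hw (hA1 ω a)
      have p2' := prj_x1 F kap pl i₀ iu w l hw (hA1 ω' a')
      have e4 : (2 : ℝ) ^ j * (prj F kap pl i₀ iu w l).x ω 1 -
          2 ^ j * (prj F kap pl i₀ iu w l).x ω' 1 = 2 ^ j * 2 ^ (w + l) / 2 *
            (fu i₀ iu (pl (kap ω)).e (F.x ω) - fu i₀ iu (pl (kap ω)).e (F.x ω')) := by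
        rw [p1', p2']
        unfold px
        rw [← hk, ← ht]
        ring
      by_cases hN : Nb ω
      · rw [if_pos hN]
        have u1 := (hkI ω a).pu
        have u2 := (hkI ω' a').pu
        rw [← hk, ← ht] at u2
        have u3 : |fu i₀ iu (pl (kap ω)).e (F.x ω) - fu i₀ iu (pl (kap ω)).e (F.x ω')| ≤
            4 / 2 ^ (w + l) := by
          rw [abs_le] at u1 u2 ⊢
          have e5 : (4 : ℝ) / 2 ^ (w + l) = 2 / 2 ^ (w + l) + 2 / 2 ^ (w + l) := by ring
          rw [e5]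
          constructor <;> linarith [u1.1, u1.2, u2.1, u2.2]
        have h1 : |2 ^ j * (prj F kap pl i₀ iu w l).x ω 1 -
            2 ^ j * (prj F kap pl i₀ iu w l).x ω' 1| ≤ 2 * 2 ^ j := by
          rw [e4, abs_mul, abs_of_pos (by positivity)]
          calc _ ≤ (2 : ℝ) ^ j * 2 ^ (w + l) / 2 * (4 / 2 ^ (w + l)) :=
                mul_le_mul_of_nonneg_left u3 (by positivity)
            _ = 2 * 2 ^ j := by
              have : (2 : ℝ) ^ (w + l) ≠ 0 := by positivity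
              field_simp
              norm_num
        refine (floor_diff h1).trans ?_
        rw [pow_add]
        linarith
      · rw [if_neg hN]
        rw [hNb] at hN
        have hN' : |(z ω).e - (pl (kap ω)).e| ≤ 4 * 2 ^ h / 2 ^ l := not_lt.1 hN
        have u1 := (hzI ω a).pu
        have u2 := (hzI ω' a').pu
        rw [← hz, ← ht] at u2
        have u3 : |fu i₀ iu (z ω).e (F.x ω) - fu i₀ iu (z ω).e (F.x ω')| ≤
            4 / 2 ^ (v + l) := by
          have e6 : (2 : ℝ) / 2 ^ (v + l') ≤ 2 / 2 ^ (v + l) :=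
            div_le_div_of_nonneg_left (by norm_num) (by positivity)
              (pow_le_pow_right₀ (by norm_num) (by omega))
          rw [abs_le] at u1 u2 ⊢
          have e5 : (4 : ℝ) / 2 ^ (v + l) = 2 / 2 ^ (v + l) + 2 / 2 ^ (v + l) := by ring
          rw [e5]
          constructor <;> linarith [u1.1, u1.2, u2.1, u2.2]
        have e7 : fu i₀ iu (pl (kap ω)).e (F.x ω) - fu i₀ iu (pl (kap ω)).e (F.x ω') =
            (fu i₀ iu (z ω).e (F.x ω) - fu i₀ iu (z ω).e (F.x ω')) +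
              ((z ω).e - (pl (kap ω)).e) * (F.x ω i₀ - F.x ω' i₀) := by
          unfold fu
          ring
        have u4 : |fu i₀ iu (pl (kap ω)).e (F.x ω) - fu i₀ iu (pl (kap ω)).e (F.x ω')| ≤
            4 / 2 ^ (v + l) + 4 * 2 ^ h / 2 ^ l * (4 / 2 ^ v) := by
          rw [e7]
          refine (abs_add_le _ _).trans (add_le_add u3 ?_)
          rw [abs_mul]
          exact mul_le_mul hN' xx (abs_nonneg _) (by positivity)
        have h1 : |2 ^ j * (prj F kap pl i₀ iu w l).x ω 1 -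
            2 ^ j * (prj F kap pl i₀ iu w l).x ω' 1| ≤ 2 + 8 * 2 ^ h := by
          rw [e4, abs_mul, abs_of_pos (by positivity)]
          have e8 : (2 : ℝ) ^ j * 2 ^ (w + l) / 2 ≤ 2 ^ (v + l) / 2 := by
            rw [pow_add 2 w l, pow_add 2 v l, ← mul_assoc]
            have : (0 : ℝ) < 2 ^ l := by positivity
            nlinarith
          calc _ ≤ (2 : ℝ) ^ (v + l) / 2 * (4 / 2 ^ (v + l) + 4 * 2 ^ h / 2 ^ l * (4 / 2 ^ v)) :=
                mul_le_mul e8 u4 (abs_nonneg _) (by positivity)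
            _ = 2 + 8 * 2 ^ h := by
              rw [pow_add]
              have : (2 : ℝ) ^ v ≠ 0 := by positivity
              have : (2 : ℝ) ^ l ≠ 0 := by positivity
              field_simp
              ring
        refine (floor_diff h1).trans ?_
        rw [pow_add]
        linarith)
  -- the expectation
  have d4 : Ex q (fun ω => Real.log (2 * (if Nb ω then 2 ^ (j + 3) else 2 ^ (h + 4)) + 1)) ≤
      Ex q (fun ω => (h + 6) * Real.log 2 + (if Nb ω then (j + 5) * Real.log 2 else 0)) := by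
    refine Ex_mono hqL.nonneg fun ω _ => ?_
    have g : ∀ n : ℕ, Real.log (2 * 2 ^ n + 1) ≤ (n + 2) * Real.log 2 := by
      intro n
      have h1 : (2 : ℝ) * 2 ^ n + 1 ≤ 2 ^ (n + 2) := by
        rw [pow_add]
        have : (1 : ℝ) ≤ 2 ^ n := one_le_pow₀ (by norm_num)
        linarith
      calc Real.log (2 * 2 ^ n + 1) ≤ Real.log (2 ^ (n + 2)) :=
            Real.log_le_log (by positivity) h1
        _ = (n + 2) * Real.log 2 := by
          rw [Real.log_pow]
          push_cast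
          ring
    have hh0 : (0 : ℝ) ≤ h := Nat.cast_nonneg h
    by_cases hN : Nb ω
    · simp only [if_pos hN]
      have := g (j + 3)
      push_cast at this
      have : 0 ≤ ((h : ℝ) + 6) * Real.log 2 := by positivity
      linarith
    · simp only [if_neg hN]
      have := g (h + 4)
      push_cast at this
      linarith
  have d5 : Ex q (fun ω => (h + 6) * Real.log 2 + (if Nb ω then (j + 5) * Real.log 2 else 0)) =
      (h + 6) * Real.log 2 + Pe q Nb * ((j + 5) * Real.log 2) := by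
    rw [Ex_add, Ex_const hqL.sum_one, Pe_eq, Finset.sum_mul]
    congr 1
    unfold Ex
    refine Finset.sum_congr rfl fun ω _ => ?_
    by_cases hN : Nb ω
    · simp only [if_pos hN]
    · simp only [if_neg hN, mul_zero, zero_mul]
  have d6 : Pe q Nb ≤ ε := by
    rw [hq, Pe_cond, div_le_iff₀ hA0, hNb]
    exact hε
  have hj0 : (0 : ℝ) ≤ j := Nat.cast_nonneg j
  have d7 : Pe q Nb * (((j : ℝ) + 5) * Real.log 2) ≤ ε * ((j + 5) * Real.log 2) :=
    mul_le_mul_of_nonneg_right d6 (by positivity)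
  push_cast at d3
  linarith

end Slo

end Pool.S6U
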