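import Pool.Agent.H32.S6U.Slo
import Pool.Agent.H32.S6U.Rows

/-!
# Regime beta of the label inequality, one family

Two rows of the positions are full given the label of the longer windows, and they are known up to
small entropy from the plank of the shorter windows.
-/

set_option autoImplicit false

namespace Pool.S6U

open Finset Real
open Pool.Agent.H49.Ent Pool.Agent.H32.Dense Pool.STK Pool.KA Pool.KSAT Pool.K2S Pool.KS6
  Pool.KA.Win Pool.KA.TRC Pool.K2S.Rows

variable {J : ℕ}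

/-- Mutual information is not smaller for a finer variable. -/
lemma mi_le {Ω S T U V : Type} [Fintype Ω] {p : Ω → ℝ} (hp : ∀ ω, 0 ≤ p ω) (X : Ω → S)
    (Y : Ω → T) (Z : Ω → U) (W : Ω → V) :
    CH p Y W - CH p Y (fun ω => (Z ω, W ω)) - CH p Y (fun ω => (X ω, W ω)) ≤
      CH p X W - CH p X (fun ω => (Z ω, W ω)) := by
  have c1 := CH_chain hp X Y W
  have c2 := CH_chain hp Y X W
  have c3 := CH_chain hp X Y (fun ω => (Z ω, W ω))
  have c4 := CH_chain hp Y X (fun ω => (Z ω, W ω))
  have e1 : CH p (fun ω => (X ω, Y ω)) W = CH p (fun ω => (Y ω, X ω)) W :=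
    le_antisymm
      (CH_mono_left hp fun ω ω' _ _ h => by
        have := Prod.ext_iff.mp (Prod.ext_iff.mp h).1
        exact Prod.ext this.2 this.1)
      (CH_mono_left hp fun ω ω' _ _ h => by
        have := Prod.ext_iff.mp (Prod.ext_iff.mp h).1
        exact Prod.ext this.2 this.1)
  have e2 : CH p (fun ω => (X ω, Y ω)) (fun ω => (Z ω, W ω)) =
      CH p (fun ω => (Y ω, X ω)) (fun ω => (Z ω, W ω)) :=
    le_antisymm
      (CH_mono_left hp fun ω ω' _ _ h => by
        have := Prod.ext_iff.mp (Prod.ext_iff.mp h).1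
        exact Prod.ext this.2 this.1)
      (CH_mono_left hp fun ω ω' _ _ h => by
        have := Prod.ext_iff.mp (Prod.ext_iff.mp h).1
        exact Prod.ext this.2 this.1)
  have m1 : CH p X (fun ω => (Y ω, (Z ω, W ω))) ≤ CH p X (fun ω => (Y ω, W ω)) :=
    CH_mono_cond hp fun ω ω' _ _ h => by
      have h1 := Prod.ext_iff.mp h
      have h2 := Prod.ext_iff.mp h1.2
      exact Prod.ext h1.1 h2.2
  have m2 : 0 ≤ CH p Y (fun ω => (X ω, (Z ω, W ω))) := CH_nonneg hp _ _
  linarith only [c1, c2, c3, c4, e1, e2, m1, m2]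

lemma mul_exp_le {a J : ℝ} (ha : 0 < a) (_hJ : 0 ≤ J) : J * Real.exp (-(a * J)) ≤ 1 / a := by
  have h1 : a * J ≤ Real.exp (a * J) := by
    have := Real.add_one_le_exp (a * J)
    linarith
  rw [Real.exp_neg, ← div_eq_mul_inv, div_le_div_iff₀ (Real.exp_pos _) ha]
  linarith

/-- **(UVLB), one family.** -/
theorem uvb_thm : UvbStmt := by
  classical
  obtain ⟨C, hC, hrows⟩ := rows_one (E := 2) (by norm_num)
  have hl2 : 0 < Real.log 2 := Real.log_pos one_lt_two
  have hl21 : Real.log 2 ≤ 1 := by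
    have := Real.log_two_lt_d9
    linarith only [hl2, this]
  have hl13 : 0 < Real.log 13 := Real.log_pos (by norm_num)
  intro η hη
  obtain ⟨γ, hγ⟩ : ∃ γ : ℝ, γ = min (η / 200) 1 := ⟨_, rfl⟩
  have hγ0 : 0 < γ := by rw [hγ]; exact lt_min (by positivity) one_pos
  have hγη : 200 * γ ≤ η := by
    have : γ ≤ η / 200 := by rw [hγ]; exact min_le_left _ _
    linarith
  have hγ1 : γ ≤ 1 := by rw [hγ]; exact min_le_right _ _
  refine ⟨γ / 6, by positivity, fun κ hκ => ?_⟩
  obtain ⟨τ, hτ⟩ : ∃ τ : ℝ, τ = γ * η / 1000 := ⟨_, rfl⟩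
  have hτ0 : 0 < τ := by rw [hτ]; positivity
  obtain ⟨K, hK⟩ : ∃ K : ℝ, K = 2 * C / γ + C + 44 / κ + 2 / κ + 10 + 13 + 2 * Real.log 13 :=
    ⟨_, rfl⟩
  have hK0 : 0 ≤ K := by rw [hK]; positivity
  obtain ⟨J₁, hJ₁⟩ := exists_nat_gt (4 * K / η + 40 / γ + 1 / τ + 2 * C / (γ * κ) + 4 / κ + 1)
  refine ⟨τ, hτ0, J₁, ?_⟩
  intro J hJ F A hTr hTm hRb hPA i₀ iu iN w l v l' P P' hwv hll hvP hPJ La kap pl z hTub hkS hkpt
    hkI hzpt hzI
  have hp := F.isLaw
  have hA0 : 0 < Pe F.p A := lt_of_lt_of_le (Real.exp_pos _) hPA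
  have hq := isLaw_cond hp hA0
  have hJr : 4 * K / η + 40 / γ + 1 / τ + 2 * C / (γ * κ) + 4 / κ + 1 < J :=
    hJ₁.trans_le (by exact_mod_cast hJ)
  have q1 : 0 ≤ 4 * K / η := by positivity
  have q2 : 0 ≤ 40 / γ := by positivity
  have q3 : 0 ≤ 1 / τ := by positivity
  have q4 : 0 ≤ 2 * C / (γ * κ) := by positivity
  have q5 : 0 ≤ 4 / κ := by positivity
  have hJ0 : (0 : ℝ) < J := by linarith only [hJr, q1, q2, q3, q4, q5]
  have r1 : 4 * K ≤ η * J := by
    have : 4 * K / η < J := by linarith only [hJr, q2, q3, q4, q5]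
    rw [div_lt_iff₀ hη] at this
    linarith only [this]
  have r2 : 40 ≤ γ * J := by
    have : 40 / γ < J := by linarith only [hJr, q1, q3, q4, q5]
    rw [div_lt_iff₀ hγ0] at this
    linarith only [this]
  have r3 : 1 ≤ τ * J := by
    have : 1 / τ < J := by linarith only [hJr, q1, q2, q4, q5]
    rw [div_lt_iff₀ hτ0] at this
    linarith only [this]
  have r4 : 2 * C / γ ≤ κ * J := by
    have : 2 * C / (γ * κ) < J := by linarith only [hJr, q1, q2, q3, q5]
    rw [div_lt_iff₀ (by positivity)] at this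
    rw [div_le_iff₀ hγ0]
    nlinarith only [this]
  -- the difference is nonnegative
  have hpos : 0 ≤ CH (cond F.p A True) (F.X P) (fun ω => (kap ω, F.W ω)) -
      CH (cond F.p A True) (F.X P) (fun ω => (z ω, kap ω, F.W ω)) := by
    have := CH_mono_cond hq.nonneg (X := F.X P) (W' := fun ω => (z ω, kap ω, F.W ω))
      (W := fun ω => (kap ω, F.W ω)) (fun ω ω' _ _ h => (Prod.ext_iff.mp h).2)
    linarith only [this]
  -- the blocks
  obtain ⟨g, hg⟩ : ∃ g : ℕ, g = ⌊γ * J⌋₊ := ⟨_, rfl⟩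
  have hg1 : (g : ℝ) ≤ γ * J := by rw [hg]; exact Nat.floor_le (by positivity)
  have hg2 : γ * J < g + 1 := by rw [hg]; exact Nat.lt_floor_add_one _
  obtain ⟨h, hh⟩ : ∃ h : ℕ, h = ⌊γ / 6 * J⌋₊ := ⟨_, rfl⟩
  have hh1 : (h : ℝ) ≤ γ / 6 * J := by rw [hh]; exact Nat.floor_le (by positivity)
  have hgpos : 0 < g := by
    by_contra h0
    have : g = 0 := by omega
    rw [this] at hg2
    norm_num at hg2
    linarith only [r2, hg2]
  have hg0 : (0 : ℝ) < g := by exact_mod_cast hgpos
  by_cases hsm : v - w < g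
  · have h1 : (v : ℝ) - w ≤ g := by
      have : v ≤ g + w := by omega
      have : (v : ℝ) ≤ g + w := by exact_mod_cast this
      linarith only [this]
    have h2 : ((v : ℝ) - w) * Real.log 2 ≤ γ * J := by
      have h3 : (0 : ℝ) ≤ (v : ℝ) - w := by
        have : (w : ℝ) ≤ v := by exact_mod_cast hwv
        linarith only [this]
      calc ((v : ℝ) - w) * Real.log 2 ≤ ((v : ℝ) - w) * 1 := mul_le_mul_of_nonneg_left hl21 h3
        _ ≤ γ * J := by linarith only [hg1, h1]
    have h4 : 200 * γ * J ≤ η * J := mul_le_mul_of_nonneg_right hγη hJ0.le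
    have h5 : 0 ≤ γ * J := by positivity
    linarith only [r2, hpos, h2, h4]
  push Not at hsm
  obtain ⟨R, hR⟩ : ∃ R, R + 1 = (v - w) / g := by
    have h1 : 1 ≤ (v - w) / g := (Nat.one_le_div_iff hgpos).2 hsm
    exact ⟨(v - w) / g - 1, by omega⟩
  have hRg : (R + 1) * g ≤ v - w := by rw [hR]; exact Nat.div_mul_le_self _ _
  have hRg2 : v - w < (R + 2) * g := by
    have h1 := Nat.lt_div_mul_add hgpos (a := v - w)
    rw [← hR] at h1
    have h2 : (R + 2) * g = (R + 1) * g + g := by ring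
    omega
  have hvJ : v - w ≤ J := by omega
  have hRgr : ((R : ℝ) + 1) * g ≤ (v : ℝ) - w := by
    have h1 : (R + 1) * g + w ≤ v := by omega
    have h2 : (((R + 1) * g + w : ℕ) : ℝ) ≤ v := by exact_mod_cast h1
    push_cast at h2
    linarith only [h2]
  have hRgr2 : (v : ℝ) - w ≤ ((R : ℝ) + 2) * g := by
    have h1 : v ≤ (R + 2) * g + w := by omega
    have h2 : (v : ℝ) ≤ (((R + 2) * g + w : ℕ) : ℝ) := by exact_mod_cast h1
    push_cast at h2
    linarith only [h2]
  have hvJr : (v : ℝ) - w ≤ J := by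
    have h1 : v ≤ J := by omega
    have h2 : (v : ℝ) ≤ J := by exact_mod_cast h1
    have h3 : (0 : ℝ) ≤ w := Nat.cast_nonneg w
    linarith only [h2]
  have hR0 : (0 : ℝ) ≤ R := Nat.cast_nonneg R
  have hR1 : ((R : ℝ) + 1) * γ ≤ 2 := by
    have h1 : γ * J / 2 ≤ g := by linarith only [r2, hg2]
    have h2 : ((R : ℝ) + 1) * (γ * J / 2) ≤ J := by
      calc ((R : ℝ) + 1) * (γ * J / 2) ≤ (R + 1) * g :=
            mul_le_mul_of_nonneg_left h1 (by linarith only)
        _ ≤ J := by linarith only [hRgr, hvJr]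
    by_contra hcon
    push Not at hcon
    nlinarith only [hγ1, r2, hg2, hRgr, hvJr, hcon]
  -- the time deficits
  have hTm' : ∀ B : F.Ω → Prop, Sub B A → Pe F.p A / 2 ≤ Pe F.p B →
      ∀ hl : IsLaw (cond F.p B True), (F.res B True hl).Tm ((5 * τ + 2 * τ) * J) := by
    intro B hB hPB hl
    refine Pool.S6K.Wfe.res_Tm hτ0.le (by linarith only [hτ0]) hTr hTm hRb ?_ hl
    refine le_trans ?_ hPB
    have h1 : Real.exp (-((2 * τ) * J)) ≤ Real.exp (-(τ * J)) / 2 := by
      rw [le_div_iff₀ (by norm_num)]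
      have h2 : (2 : ℝ) = Real.exp (Real.log 2) := by rw [Real.exp_log (by norm_num)]
      calc Real.exp (-((2 * τ) * J)) * 2 = Real.exp (-((2 * τ) * J)) *
            Real.exp (Real.log 2) := by rw [← h2]
        _ = Real.exp (-((2 * τ) * J) + Real.log 2) := by rw [← Real.exp_add]
        _ ≤ _ := Real.exp_le_exp.2 (by linarith only [hl21, r3])
    linarith only [hPA, h1]
  have hkA : ∀ ω, A ω → |pd i₀ iu l (pl (kap ω)) (F.d ω)| ≤ 1 ∧ |(pl (kap ω)).e| ≤ 2 := by
    intro ω hω
    refine ⟨?_, (hkI ω hω).e_le⟩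
    unfold pd
    have hl0 : (0 : ℝ) < 2 ^ l := by positivity
    rw [abs_mul, abs_of_pos (by positivity)]
    calc (2 : ℝ) ^ l / 2 * |fu i₀ iu (pl (kap ω)).e (F.d ω) -
          fu i₀ iu (pl (kap ω)).e (pl (kap ω)).db| ≤ 2 ^ l / 2 * (2 / 2 ^ l) :=
          mul_le_mul_of_nonneg_left (hkI ω hω).vu (by positivity)
      _ = 1 := by field_simp
  have hκJ : C * ((R : ℝ) + 1) ≤ κ * J := by
    refine le_trans ?_ r4
    rw [le_div_iff₀ hγ0]
    nlinarith only [hC, hR1]
  -- the three terms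
  have t1 := hrows J F A i₀ iu w l v g h R (κ * J) ((5 * τ + 2 * τ) * J) (by omega) (by omega) hA0
    hTm' (by
      have h1 : 3 * (h : ℝ) + 15 ≤ g := by
        have h2 : 3 * (γ / 6 * J) = γ * J / 2 := by ring
        have h3 : 3 * (h : ℝ) ≤ γ * J / 2 := by rw [← h2]; linarith only [hh1]
        linarith only [r2, hg2, hh1]
      have h4 : 3 * h + 15 ≤ g := by exact_mod_cast h1
      omega)
    hκJ La kap pl (by rw [hh]; exact hTub) hkS hkpt hkA
  exact by
   have t2 := snd_term F kap pl i₀ iu iN w l (A := A) (v := v) (l' := l') (P' := P') (h := h)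
     (j := (R + 1) * g) (by omega) hll (by omega) hkI hzI (fun ω hω => (hkA ω hω).1) hA0
     (ε := Real.exp (-(κ * J))) (by
       by_contra hcon
       push Not at hcon
       refine hTub _ (fun ω hω => hω.1) hcon.le ?_
       rw [← hh]
       exact slope_tub F kap pl i₀ iu iN w l hll hkpt hkI hzpt hzI)
   have t3 := prj_X_vis F kap pl i₀ iu w l (by omega) (P := P) (j := (R + 1) * g) (by omega)
     (E := 2) (by norm_num) (A := A) hkA hq (fun ω hω => by
       have := ((cond_pos_iff hp.nonneg A True ω).1 hω).2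
       simpa using this) (fun ω => (F.X P ω, (kap ω, F.W ω))) (fun ω ω' _ _ e => by
       have e1 := Prod.ext_iff.mp e
       have e2 := Prod.ext_iff.mp e1.2
       exact ⟨e2.1, e1.1, (Prod.ext_iff.mp e2.2).1⟩)
   have e13 : (2 * 2 + 9 : ℝ) = 13 := by norm_num
   rw [e13] at t3
   have t0 : CH (cond F.p A True) ((prj F kap pl i₀ iu w l).X ((R + 1) * g))
       (fun ω => ((prj F kap pl i₀ iu w l).X g ω, (kap ω, F.W ω))) ≤
       CH (cond F.p A True) ((prj F kap pl i₀ iu w l).X ((R + 1) * g))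
         (fun ω => (kap ω, F.W ω)) :=
     CH_mono_cond hq.nonneg fun ω ω' _ _ h => (Prod.ext_iff.mp h).2
   replace t1 := t1.trans t0
   have t4 := mi_le hq.nonneg (F.X P) ((prj F kap pl i₀ iu w l).X ((R + 1) * g)) z
     (fun ω => (kap ω, F.W ω))
   refine le_trans ?_ t4
   -- arithmetic
   obtain ⟨ρ, hρ⟩ : ∃ ρ, ρ = Real.exp (-(κ * J / 4)) := ⟨_, rfl⟩
   obtain ⟨ε, hε⟩ : ∃ ε, ε = Real.exp (-(κ * J)) := ⟨_, rfl⟩
   have hρ0 : 0 < ρ := by rw [hρ]; exact Real.exp_pos _
   have hε0 : 0 < ε := by rw [hε]; exact Real.exp_pos _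
   have hρ1 : ρ ≤ 1 := by
     rw [hρ, Real.exp_le_one_iff]
     have : 0 ≤ κ * J / 4 := by positivity
     linarith only [this]
   have hε1 : ε ≤ 1 := by
     rw [hε, Real.exp_le_one_iff]
     have : 0 ≤ κ * J := by positivity
     linarith only [this]
   have hρJ : J * ρ ≤ 4 / κ := by
     have h1 := mul_exp_le (a := κ / 4) (J := J) (by positivity) hJ0.le
     have h2 : -(κ / 4 * J) = -(κ * J / 4) := by ring
     rw [h2, ← hρ] at h1
     refine h1.trans (le_of_eq ?_)
     field_simp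
   exact by
    have hεJ : J * ε ≤ 1 / κ := by
      have h1 := mul_exp_le (a := κ) (J := J) hκ hJ0.le
      rw [← hε] at h1
      exact h1
    rw [← hρ] at t1
    rw [← hε] at t2
    push_cast at t2
    -- bounds for the single terms
    obtain ⟨G, hG⟩ : ∃ G : ℝ, G = g * Real.log 2 := ⟨_, rfl⟩
    have hG0 : 0 ≤ G := by rw [hG]; positivity
    have hG1 : G ≤ γ * J := by
      rw [hG]
      calc (g : ℝ) * Real.log 2 ≤ g * 1 := mul_le_mul_of_nonneg_left hl21 hg0.le
        _ ≤ γ * J := by linarith only [hg1]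
    rw [← hG] at t1
    have s1 : (R : ℝ) * G ≤ J := by
      rw [hG]
      calc (R : ℝ) * (g * Real.log 2) ≤ R * (g * 1) :=
            mul_le_mul_of_nonneg_left (mul_le_mul_of_nonneg_left hl21 hg0.le) hR0
        _ ≤ J := by nlinarith only [r2, hg2, hRgr, hvJr]
    have s2 : ((v : ℝ) - w) * Real.log 2 ≤ R * G + 2 * G := by
      rw [hG]
      calc ((v : ℝ) - w) * Real.log 2 ≤ (((R : ℝ) + 2) * g) * Real.log 2 :=
            mul_le_mul_of_nonneg_right hRgr2 hl2.le
        _ = _ := by ring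
    have s3 : (R : ℝ) * ((5 * τ + 2 * τ) * J) ≤ η * J / 50 := by
      have h1 : (R : ℝ) * (7 * τ) ≤ η / 50 := by
        rw [hτ]
        nlinarith only [hτ, hτ0, hη, hγ1, hR1]
      exact by
       calc (R : ℝ) * ((5 * τ + 2 * τ) * J) = (R * (7 * τ)) * J := by ring
         _ ≤ η / 50 * J := mul_le_mul_of_nonneg_right h1 hJ0.le
         _ = _ := by ring
    exact by
     have s4 : (R : ℝ) * (9 * G * ρ) ≤ 36 / κ := by
       calc (R : ℝ) * (9 * G * ρ) = 9 * ((R * G) * ρ) := by ring
         _ ≤ 9 * (J * ρ) := by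
           have := mul_le_mul_of_nonneg_right s1 hρ0.le
           linarith only [this]
         _ ≤ 9 * (4 / κ) := by linarith only [hρJ]
         _ = 36 / κ := by ring
     exact by
      have s5 : (R : ℝ) * C ≤ 2 * C / γ := by
        rw [le_div_iff₀ hγ0]
        nlinarith only [hC, hγ0, hR1]
      exact by
       have s6 : ρ * (R * (2 * G)) ≤ 8 / κ := by
         calc ρ * (R * (2 * G)) = 2 * ((R * G) * ρ) := by ring
           _ ≤ 2 * (J * ρ) := by
             have := mul_le_mul_of_nonneg_right s1 hρ0.le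
             linarith only [this]
           _ ≤ 2 * (4 / κ) := by linarith only [hρJ]
           _ = 8 / κ := by ring
       have s7 : ε * ((((R : ℝ) + 1) * g + 5) * Real.log 2) ≤ 1 / κ + 5 := by
         have h1 : (((R : ℝ) + 1) * g + 5) * Real.log 2 ≤ J + 5 := by
           calc (((R : ℝ) + 1) * g + 5) * Real.log 2 ≤ (((R : ℝ) + 1) * g + 5) * 1 :=
                 mul_le_mul_of_nonneg_left hl21 (by positivity)
             _ ≤ J + 5 := by linarith only [hRgr, hvJr]
         calc _ ≤ ε * (J + 5) := mul_le_mul_of_nonneg_left h1 hε0.le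
           _ = J * ε + 5 * ε := by ring
           _ ≤ 1 / κ + 5 := by linarith only [hε1, hεJ]
       exact by
        have s8 : ((h : ℝ) + 6) * Real.log 2 ≤ γ * J / 6 + 6 := by
          calc ((h : ℝ) + 6) * Real.log 2 ≤ ((h : ℝ) + 6) * 1 :=
                mul_le_mul_of_nonneg_left hl21 (by positivity)
            _ ≤ _ := by linarith only [hh1]
        exact by
         have s9 : γ * J ≤ η * J / 200 := by
           have := mul_le_mul_of_nonneg_right hγη hJ0.le
           linarith only [this]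
         have s10 : 0 ≤ ρ * (24 * G + R * (4 * ((5 * τ + 2 * τ) * J) + 9 * G * ρ + C) + C) := by
           positivity
         have t1' : R * (2 * G) - 24 * G - R * (4 * ((5 * τ + 2 * τ) * J) + 9 * G * ρ + C) - C -
             ρ * (R * (2 * G)) ≤
             CH (cond F.p A True) ((prj F kap pl i₀ iu w l).X ((R + 1) * g))
               (fun ω => (kap ω, F.W ω)) := by
           exact by
            refine le_trans ?_ t1
            linarith only [s10]
         exact by
          have u1 : (R : ℝ) * (4 * ((5 * τ + 2 * τ) * J) + 9 * G * ρ + C) ≤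
              4 * (η * J / 50) + 36 / κ + 2 * C / γ := by
            have : (R : ℝ) * (4 * ((5 * τ + 2 * τ) * J) + 9 * G * ρ + C) =
              4 * (R * ((5 * τ + 2 * τ) * J)) + R * (9 * G * ρ) + R * C := by ring
            rw [this]
            linarith only [s3, s4, s5]
          exact by
           have u2 : K = 2 * C / γ + C + 44 / κ + 2 / κ + 10 + 13 + 2 * Real.log 13 := hK
           have u3 : (36 : ℝ) / κ + 8 / κ = 44 / κ := by ring
           have u4 : 2 * ((1 : ℝ) / κ) = 2 / κ := by ring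
           have hηJ : 0 ≤ η * J := by positivity
           linarith only [hl21, hK, r1, r2, t3, t2, t1, hG1, s2, s3, s4, s5, s6, s7, s8, s9, s10, u3, u4]

end Pool.S6U
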