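import Pool.Agent.H77.S6.LAB

/-!
# Regime beta of the label inequality: the statement for one family

Two planks contain the line: the plank of the label `kap` on the windows `2 ^ (-w)`, of width
`2 ^ (-l)` for the velocities, and the plank `z` on the shorter windows `2 ^ (-v)`, of the same
relative width; both are functions of the exact point. If the velocities `(D_e, 2 ^ l (D_u - e D_e))`
do not lie in tubes of width `2 ^ (-h)` which are functions of the exact point, on any event of not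
too small relative probability, the second plank costs the positions two full rows `(w, v]`.
-/

set_option autoImplicit false

namespace Pool.S6U

open Finset Real
open Pool.Agent.H49.Ent Pool.Agent.H32.Dense Pool.STK Pool.KA Pool.KSAT Pool.K2S Pool.KS6

variable {J : ℕ}

/-- On `B` the velocities, in units of a box of width `2 ^ (-l)` with slope `e`, lie in a tube of
width `2 ^ (-h)` which is a function of the exact point. -/
def TubB (F : Fam 3 J) (i₀ iu : Fin 3) (l h : ℕ) (e : F.Ω → ℝ) (B : F.Ω → Prop) : Prop :=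
  ∃ aa bb cc : (Fin 3 → ℤ) × (ℕ × F.ζ) → ℝ,
    (∀ ω, B ω → 1 / 2 ≤ |aa (Fam.pt F ω)| ∨ 1 / 2 ≤ |bb (Fam.pt F ω)|) ∧
    ∀ ω, B ω → |aa (Fam.pt F ω) * F.d ω i₀ +
      bb (Fam.pt F ω) * (2 ^ l * (F.d ω iu - e ω * F.d ω i₀)) - cc (Fam.pt F ω)| ≤ 1 / 2 ^ h

/-- **(UVLB), one family.** -/
def UvbStmt : Prop :=
  ∀ η : ℝ, 0 < η → ∃ h₀ : ℝ, 0 < h₀ ∧ ∀ κ : ℝ, 0 < κ → ∃ τ > 0, ∃ J₁ : ℕ, ∀ J ≥ J₁,
    ∀ (F : Fam 3 J) (A : F.Ω → Prop),
    F.Tr → F.Tm (τ * J) → F.Rb (τ * J) → Real.exp (-(τ * J)) ≤ Pe F.p A →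
    ∀ (i₀ iu iN : Fin 3) (w l v l' P P' : ℕ), w ≤ v → l ≤ l' → v + l ≤ P → P ≤ J →
    ∀ (La : Type) (kap : F.Ω → La) (pl : La → Pln) (z : F.Ω → Pln),
    (∀ B : F.Ω → Prop, Sub B A → Real.exp (-(κ * J)) * Pe F.p A ≤ Pe F.p B →
      ¬ TubB F i₀ iu l ⌊h₀ * J⌋₊ (fun ω => (pl (kap ω)).e) B) →
    (∀ ω ω', A ω → A ω' → slam F w ω = slam F w ω' → kap ω = kap ω') →
    (∀ ω ω', A ω → A ω' → Fam.pt F ω = Fam.pt F ω' → kap ω = kap ω') →
    (∀ ω, A ω → Inc i₀ iu iN w l P' 2 (pl (kap ω)) (F.t ω) (F.x ω) (F.d ω)) →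
    (∀ ω ω', A ω → A ω' → Fam.pt F ω = Fam.pt F ω' → z ω = z ω') →
    (∀ ω, A ω → Inc i₀ iu iN v l' P' 2 (z ω) (F.t ω) (F.x ω) (F.d ω)) →
    2 * (((v : ℝ) - w) * Real.log 2) - η * J ≤
      CH (Pool.Agent.H49.Ent.cond F.p A True) (F.X P) (fun ω => (kap ω, F.W ω)) -
        CH (Pool.Agent.H49.Ent.cond F.p A True) (F.X P) (fun ω => (z ω, kap ω, F.W ω))

end Pool.S6U
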