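import Pool.Agent.H32.S6U.UvdStmt
import Pool.Agent.H32.S6U.RowsA

/-!
# Regime beta: the block of two rows in one frame
-/

set_option autoImplicit false

namespace Pool.S6U

open Finset Real
open Pool.Agent.H49.Ent Pool.Agent.H32.Dense Pool.STK Pool.KA Pool.KSAT Pool.K2S Pool.KS6
  Pool.KA.Win Pool.KA.TRC Pool.K2S.Rows

variable {J : ℕ}

/-- The own plank of the slope `a / 2 ^ l` and the velocity `b / 2 ^ l` along the fans. -/
noncomputable def opl {Λ : Type} (ς : Fin 3 → Fin 3) (l : ℕ) (v : Λ × (ℤ × ℤ)) : Pln where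
  e := (v.2.1 : ℝ) / 2 ^ l
  c := 0
  s := 0
  xb := 0
  db := fun i => if i = ς 1 then (v.2.2 : ℝ) / 2 ^ l else 0

/-- The label: side label, own slope, velocity along the fans. -/
noncomputable def okap (F : Fam 3 J) {Λ : Type} (ς : Fin 3 → Fin 3) (l : ℕ) (κ : F.Ω → Λ)
    (al : F.Ω → ℝ) (ω : F.Ω) : Λ × (ℤ × ℤ) :=
  (κ ω, (Uni.dg l al ω, ⌊(2 : ℝ) ^ l * (F.d ω (ς 1) - ald l al ω * F.d ω (ς 0))⌋))

lemma fu_opl {Λ : Type} {ς : Fin 3 → Fin 3} (hς : Function.Injective ς) (l : ℕ)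
    (v : Λ × (ℤ × ℤ)) (e : ℝ) : fu (ς 0) (ς 1) e (opl ς l v).db = (v.2.2 : ℝ) / 2 ^ l := by
  have h : ς 0 ≠ ς 1 := fun h => by simpa using hς h
  unfold fu opl
  simp [h]

theorem uvd_thm : UvdStmt := by
  classical
  intro η E C hη hE hC
  obtain ⟨h₀, hh₀, hmain⟩ := rows_asy (E := E) (half_pos hη) hE
  refine ⟨h₀, hh₀, fun κ₀ hκ₀ => ?_⟩
  obtain ⟨τ, hτ, J₁, hJ₁⟩ := hmain κ₀ hκ₀
  obtain ⟨K, hK⟩ : ∃ K : ℝ, K = 2 * Real.log 5 + 3 * Real.log (2 * (2 * C + 5) + 1) := ⟨_, rfl⟩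
  obtain ⟨J₂, hJ₂⟩ := exists_nat_gt (2 * K / η)
  refine ⟨τ, hτ, max J₁ J₂, ?_⟩
  intro J hJ F A hTr hTm hRb hPA ς hς w l n N hn Λ κ pl al hL hTub
  have hp := F.isLaw
  have hA0 : 0 < Pe F.p A := lt_of_lt_of_le (Real.exp_pos _) hPA
  obtain ⟨q, hq⟩ : ∃ q, q = Pool.Agent.H49.Ent.cond F.p A True := ⟨_, rfl⟩
  have hqL : IsLaw q := by rw [hq]; exact isLaw_cond hp hA0
  have hqA : ∀ ω, 0 < q ω → A ω := by
    intro ω hω
    rw [hq] at hω
    have := ((cond_pos_iff hp.nonneg A True ω).1 hω).2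
    simpa using this
  have hw : w ≤ J := by omega
  have hpl : (2 : ℝ) ^ l ≠ 0 := by positivity
  obtain ⟨kap, hkap⟩ : ∃ kap, kap = okap F ς l κ al := ⟨_, rfl⟩
  have hke : ∀ ω, (opl ς l (kap ω)).e = ald l al ω := by
    intro ω
    rw [hkap]
    rfl
  have hpd : ∀ ω, |pd (ς 0) (ς 1) l (opl ς l (kap ω)) (F.d ω)| ≤ 1 := by
    intro ω
    unfold pd
    rw [fu_opl hς, hke, hkap]
    change |(2 : ℝ) ^ l / 2 * ((F.d ω (ς 1) - ald l al ω * F.d ω (ς 0)) -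
      (⌊(2 : ℝ) ^ l * (F.d ω (ς 1) - ald l al ω * F.d ω (ς 0))⌋ : ℝ) / 2 ^ l)| ≤ 1
    obtain ⟨y, hy⟩ : ∃ y, y = F.d ω (ς 1) - ald l al ω * F.d ω (ς 0) := ⟨_, rfl⟩
    rw [← hy]
    have e1 : (2 : ℝ) ^ l / 2 * (y - (⌊(2 : ℝ) ^ l * y⌋ : ℝ) / 2 ^ l) =
        (2 ^ l * y - ⌊(2 : ℝ) ^ l * y⌋) / 2 := by
      field_simp
    rw [e1, abs_le]
    have h1 := Int.floor_le ((2 : ℝ) ^ l * y)
    have h2 := Int.lt_floor_add_one ((2 : ℝ) ^ l * y)
    constructor <;> linarith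
  have hkP : ∀ ω ω', A ω → A ω' → Fam.pt F ω = Fam.pt F ω' → kap ω = kap ω' := by
    intro ω ω' a a' e
    rw [hkap]
    exact Prod.ext (hL.kP ω ω' a a' e) (Prod.ext (hL.aP ω ω' a a' e) (hL.vP ω ω' a a' e))
  have hkS : ∀ ω ω', A ω → A ω' → slam F w ω = slam F w ω' → kap ω = kap ω' := by
    intro ω ω' a a' e
    have h1 := hL.aS ω ω' a a' e
    have h2 : F.d ω = F.d ω' := (Prod.ext_iff.mp (Prod.ext_iff.mp e).1).2
    rw [hkap]
    refine Prod.ext (hL.kS ω ω' a a' e) (Prod.ext h1 ?_)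
    change ⌊(2 : ℝ) ^ l * (F.d ω (ς 1) - ald l al ω * F.d ω (ς 0))⌋ =
      ⌊(2 : ℝ) ^ l * (F.d ω' (ς 1) - ald l al ω' * F.d ω' (ς 0))⌋
    unfold ald
    rw [h1, h2]
  obtain ⟨g, j, hgj, hjn, key⟩ := hJ₁ J ((le_max_left _ _).trans hJ) F A hTr hTm hRb hPA (ς 0)
    (ς 1) w l n hn (Λ × (ℤ × ℤ)) kap (opl ς l) (by
      have : (fun ω => (opl ς l (kap ω)).e) = ald l al := funext hke
      rw [this]
      exact hTub) hkS hkP (fun ω hω => ⟨hpd ω, by rw [hke]; exact hL.bd ω hω⟩)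
  rw [← hq] at key ⊢
  -- the boxes
  obtain ⟨s, hs⟩ : ∃ s : F.Ω → ℝ, s = fun ω => -(pl (κ ω)).s := ⟨_, rfl⟩
  obtain ⟨t, ht⟩ : ∃ t : F.Ω → ℝ, t = fun ω => -(pl (κ ω)).c := ⟨_, rfl⟩
  rw [← hs, ← ht]
  obtain ⟨Y, hY⟩ : ∃ Y, Y = (prj F kap (opl ς l) (ς 0) (ς 1) w l).X j := ⟨_, rfl⟩
  obtain ⟨Y0, hY0⟩ : ∃ Y0, Y0 = (prj F kap (opl ς l) (ς 0) (ς 1) w l).X g := ⟨_, rfl⟩
  rw [← hY, ← hY0] at key
  -- the positions of the projected family
  have px1 : ∀ ω, (prj F kap (opl ς l) (ς 0) (ς 1) w l).x ω 1 =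
      2 ^ (w + l) / 2 * ((F.x ω (ς 1) - ald l al ω * F.x ω (ς 0)) -
        F.t ω * (((kap ω).2.2 : ℝ) / 2 ^ l)) := by
    intro ω
    rw [prj_x1 F kap (opl ς l) (ς 0) (ς 1) w l hw (hpd ω)]
    have h : ς 0 ≠ ς 1 := fun h => by simpa using hς h
    unfold px
    rw [hke]
    unfold fu opl
    simp [h]
  have pY : ∀ (m : ℕ) (ω ω' : F.Ω), (prj F kap (opl ς l) (ς 0) (ς 1) w l).X m ω =
      (prj F kap (opl ς l) (ς 0) (ς 1) w l).X m ω' → ∀ i,
      |(prj F kap (opl ς l) (ς 0) (ς 1) w l).x ω i -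
        (prj F kap (opl ς l) (ς 0) (ς 1) w l).x ω' i| ≤ 1 / 2 ^ m := fun m ω ω' e i =>
    floor_close (n := m) (congrFun e i)
  have a1 := CH_le_add hqL.nonneg Y (F.sbx ς (w + n) (w + n + l) N (ald l al) s t)
    (fun ω => (Y0 ω, (kap ω, F.W ω)))
  have a2 := CH_le_add hqL.nonneg (F.sbx ς (w + n) (w + n + l) N (ald l al) s t)
    (F.sbx ς w (w + l) N (ald l al) s t) (fun ω => (Y0 ω, (kap ω, F.W ω)))
  have a3 : CH q (F.sbx ς (w + n) (w + n + l) N (ald l al) s t)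
      (fun ω => (F.sbx ς w (w + l) N (ald l al) s t ω, (Y0 ω, (kap ω, F.W ω)))) ≤
      CH q (F.sbx ς (w + n) (w + n + l) N (ald l al) s t)
      (fun ω => (F.sbx ς w (w + l) N (ald l al) s t ω, (Uni.dg l al ω, (κ ω, F.W ω)))) := by
    refine CH_mono_cond hqL.nonneg fun ω ω' _ _ e => ?_
    have e1 := Prod.ext_iff.mp e
    have e2 := Prod.ext_iff.mp (Prod.ext_iff.mp e1.2).2
    have e3 : kap ω = kap ω' := e2.1
    rw [hkap] at e3
    have e4 := Prod.ext_iff.mp e3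
    have e5 := Prod.ext_iff.mp e4.2
    exact Prod.ext e1.1 (Prod.ext e5.1 (Prod.ext e4.1 e2.2))
  -- the coarse box
  have a4 : CH q (F.sbx ς w (w + l) N (ald l al) s t) (fun ω => (Y0 ω, (kap ω, F.W ω))) ≤
      3 * Real.log (2 * (2 * C + 5) + 1) := by
    have h1 := CH_le_vec hqL.nonneg hqL.sum_one
      (fun ω (i : Fin 3) => (![⌊(2 : ℝ) ^ w * Vd.co F ς (ald l al) s t 0 ω⌋,
        ⌊(2 : ℝ) ^ (w + l) * Vd.co F ς (ald l al) s t 1 ω⌋,
        ⌊(2 : ℝ) ^ N * Vd.co F ς (ald l al) s t 2 ω⌋] : Fin 3 → ℤ) i)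
      (fun ω => (Y0 ω, (kap ω, F.W ω))) (fun _ => 2 * C + 5) (by
      intro ω ω' p1 p2 e i
      have e1 := Prod.ext_iff.mp e
      have e2 := Prod.ext_iff.mp e1.2
      have e3 : kap ω = kap ω' := e2.1
      have e4 : kap ω = okap F ς l κ al ω := by rw [hkap]
      have e4' : kap ω' = okap F ς l κ al ω' := by rw [hkap]
      have hκ : κ ω = κ ω' := by
        have := (Prod.ext_iff.mp (e4.symm.trans (e3.trans e4'))).1
        exact this
      have hT : F.T ω = F.T ω' := (Prod.ext_iff.mp e2.2).1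
      have htt : F.t ω = F.t ω' := by
        unfold Fam.t
        rw [hT]
      have hald : ald l al ω = ald l al ω' := by rw [← hke, ← hke, e3]
      have hss : s ω = s ω' := by rw [hs]; simp only [hκ]
      have htc : t ω = t ω' := by rw [ht]; simp only [hκ]
      have e5 : Y0 ω = Y0 ω' := e1.1
      rw [hY0] at e5
      have hg1 : (1 : ℝ) / 2 ^ g ≤ 1 := by
        rw [div_le_one (by positivity)]
        exact one_le_pow₀ (by norm_num)
      have y0 := (pY g ω ω' e5 0).trans hg1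
      have y1 := (pY g ω ω' e5 1).trans hg1
      rw [prj_x0 F kap (opl ς l) (ς 0) (ς 1) w l hw,
        prj_x0 F kap (opl ς l) (ς 0) (ς 1) w l hw] at y0
      rw [px1, px1, ← e3, ← htt] at y1
      match i with
      | 0 =>
        change |((⌊(2 : ℝ) ^ w * Vd.co F ς (ald l al) s t 0 ω⌋ -
          ⌊(2 : ℝ) ^ w * Vd.co F ς (ald l al) s t 0 ω'⌋ : ℤ) : ℝ)| ≤ _
        refine (floor_diff (M := 1) ?_).trans (by linarith)
        unfold Vd.co
        rw [Box.mco_tfr0, Box.mco_tfr0]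
        exact y0
      | 1 =>
        change |((⌊(2 : ℝ) ^ (w + l) * Vd.co F ς (ald l al) s t 1 ω⌋ -
          ⌊(2 : ℝ) ^ (w + l) * Vd.co F ς (ald l al) s t 1 ω'⌋ : ℤ) : ℝ)| ≤ _
        refine (floor_diff (M := 2) ?_).trans (by linarith)
        unfold Vd.co
        rw [Box.mco_tfr1, Box.mco_tfr1]
        rw [abs_le] at y1 ⊢
        constructor <;> linarith [y1.1, y1.2]
      | 2 =>
        change |((⌊(2 : ℝ) ^ N * Vd.co F ς (ald l al) s t 2 ω⌋ -
          ⌊(2 : ℝ) ^ N * Vd.co F ς (ald l al) s t 2 ω'⌋ : ℤ) : ℝ)| ≤ _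
        refine (floor_diff (M := 2 * C) ?_).trans (by linarith)
        unfold Vd.co
        rw [Box.mco_tfr2, Box.mco_tfr2, ← hss, ← htc]
        have n1 := hL.pn ω (hqA ω p1)
        have n2 := hL.pn ω' (hqA ω' p2)
        rw [← hκ, ← htt] at n2
        have f1 : F.x ω (ς 2) - s ω * F.x ω (ς 1) - t ω * F.x ω (ς 0) =
            fn (ς 0) (ς 1) (ς 2) (pl (κ ω)).c (pl (κ ω)).s (F.x ω) := by
          rw [hs, ht]
          unfold fn
          ring
        have f2 : F.x ω' (ς 2) - s ω * F.x ω' (ς 1) - t ω * F.x ω' (ς 0) =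
            fn (ς 0) (ς 1) (ς 2) (pl (κ ω)).c (pl (κ ω)).s (F.x ω') := by
          rw [hs, ht]
          unfold fn
          ring
        rw [f1, f2, ← mul_sub, abs_mul, abs_of_pos (by positivity)]
        have f3 : |fn (ς 0) (ς 1) (ς 2) (pl (κ ω)).c (pl (κ ω)).s (F.x ω) -
            fn (ς 0) (ς 1) (ς 2) (pl (κ ω)).c (pl (κ ω)).s (F.x ω')| ≤ 2 * C / 2 ^ N := by
          rw [abs_le] at n1 n2 ⊢
          have e6 : 2 * C / 2 ^ N = C / 2 ^ N + C / 2 ^ N := by ring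
          rw [e6]
          constructor <;> linarith [n1.1, n1.2, n2.1, n2.2]
        calc (2 : ℝ) ^ N * |fn (ς 0) (ς 1) (ς 2) (pl (κ ω)).c (pl (κ ω)).s (F.x ω) -
              fn (ς 0) (ς 1) (ς 2) (pl (κ ω)).c (pl (κ ω)).s (F.x ω')| ≤
              2 ^ N * (2 * C / 2 ^ N) := mul_le_mul_of_nonneg_left f3 (by positivity)
          _ = 2 * C := by field_simp)
    rw [Ex_const hqL.sum_one] at h1
    refine le_trans (CH_mono_left hqL.nonneg fun ω ω' _ _ e => ?_) (h1.trans (by norm_num))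
    have e1 := Prod.ext_iff.mp e
    have e2 := Prod.ext_iff.mp (Prod.ext_iff.mp e1.2).2
    have e3 : kap ω = kap ω' := e2.1
    have e4 : kap ω = okap F ς l κ al ω := by rw [hkap]
    have e4' : kap ω' = okap F ς l κ al ω' := by rw [hkap]
    have hκ : κ ω = κ ω' := by
      have := (Prod.ext_iff.mp (e4.symm.trans (e3.trans e4'))).1
      exact this
    have hald : ald l al ω = ald l al ω' := by rw [← hke, ← hke, e3]
    have hss : s ω = s ω' := by rw [hs]; simp only [hκ]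
    have htc : t ω = t ω' := by rw [ht]; simp only [hκ]
    exact Vd.sbx_ext.2 ⟨⟨hald, hss, htc⟩, congrFun e1.1 0, congrFun e1.1 1, congrFun e1.1 2⟩
  -- the positions of the projected family in the fine box
  have a5 : CH q Y (fun ω => (F.sbx ς (w + n) (w + n + l) N (ald l al) s t ω,
      (Y0 ω, (kap ω, F.W ω)))) ≤ 2 * Real.log 5 := by
    have h1 := CH_le_vec hqL.nonneg hqL.sum_one Y
      (fun ω => (F.sbx ς (w + n) (w + n + l) N (ald l al) s t ω, (Y0 ω, (kap ω, F.W ω))))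
      (fun _ => 2) (by
      intro ω ω' p1 p2 e i
      have e1 := Prod.ext_iff.mp e
      have e2 := Prod.ext_iff.mp (Prod.ext_iff.mp e1.2).2
      have e3 : kap ω = kap ω' := e2.1
      have hT : F.T ω = F.T ω' := (Prod.ext_iff.mp e2.2).1
      have htt : F.t ω = F.t ω' := by
        unfold Fam.t
        rw [hT]
      obtain ⟨⟨b1, -, -⟩, b2, b3, -⟩ := Vd.sbx_ext.1 e1.1
      have c0 := KS6.floor_close b2
      have c1 := KS6.floor_close b3
      unfold Vd.co at c0 c1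
      rw [Box.mco_tfr0, Box.mco_tfr0] at c0
      rw [Box.mco_tfr1, Box.mco_tfr1] at c1
      rw [hY]
      match i with
      | 0 =>
        refine (floor_diff (M := 1) ?_).trans (by norm_num)
        change |(2 : ℝ) ^ j * (prj F kap (opl ς l) (ς 0) (ς 1) w l).x ω 0 -
          2 ^ j * (prj F kap (opl ς l) (ς 0) (ς 1) w l).x ω' 0| ≤ 1
        rw [prj_x0 F kap (opl ς l) (ς 0) (ς 1) w l hw,
          prj_x0 F kap (opl ς l) (ς 0) (ς 1) w l hw]
        have e4 : (2 : ℝ) ^ j * (2 ^ w * F.x ω (ς 0)) - 2 ^ j * (2 ^ w * F.x ω' (ς 0)) =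
            2 ^ j * 2 ^ w * (F.x ω (ς 0) - F.x ω' (ς 0)) := by ring
        rw [e4, abs_mul, abs_of_pos (by positivity)]
        have e5 : (2 : ℝ) ^ j * 2 ^ w ≤ 2 ^ (w + n) := by
          rw [← pow_add]
          exact pow_le_pow_right₀ (by norm_num) (by omega)
        calc (2 : ℝ) ^ j * 2 ^ w * |F.x ω (ς 0) - F.x ω' (ς 0)| ≤
              2 ^ (w + n) * (1 / 2 ^ (w + n)) :=
              mul_le_mul e5 c0 (abs_nonneg _) (by positivity)
          _ = 1 := by field_simp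
      | 1 =>
        refine (floor_diff (M := 1) ?_).trans (by norm_num)
        change |(2 : ℝ) ^ j * (prj F kap (opl ς l) (ς 0) (ς 1) w l).x ω 1 -
          2 ^ j * (prj F kap (opl ς l) (ς 0) (ς 1) w l).x ω' 1| ≤ 1
        rw [px1, px1, ← e3, ← htt]
        have e4 : (2 : ℝ) ^ j * (2 ^ (w + l) / 2 * (F.x ω (ς 1) - ald l al ω * F.x ω (ς 0) -
            F.t ω * (((kap ω).2.2 : ℝ) / 2 ^ l))) -
            2 ^ j * (2 ^ (w + l) / 2 * (F.x ω' (ς 1) - ald l al ω' * F.x ω' (ς 0) -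
            F.t ω * (((kap ω).2.2 : ℝ) / 2 ^ l))) =
            2 ^ j * 2 ^ (w + l) / 2 * ((F.x ω (ς 1) - ald l al ω * F.x ω (ς 0)) -
              (F.x ω' (ς 1) - ald l al ω' * F.x ω' (ς 0))) := by ring
        rw [e4, abs_mul, abs_of_pos (by positivity)]
        have e5 : (2 : ℝ) ^ j * 2 ^ (w + l) / 2 ≤ 2 ^ (w + n + l) := by
          have h6 : (2 : ℝ) ^ j * 2 ^ (w + l) ≤ 2 ^ (w + n + l) := by
            rw [← pow_add]
            exact pow_le_pow_right₀ (by norm_num) (by omega)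
          have h7 : (0 : ℝ) < 2 ^ (w + n + l) := by positivity
          linarith
        calc (2 : ℝ) ^ j * 2 ^ (w + l) / 2 * |(F.x ω (ς 1) - ald l al ω * F.x ω (ς 0)) -
              (F.x ω' (ς 1) - ald l al ω' * F.x ω' (ς 0))| ≤
              2 ^ (w + n + l) * (1 / 2 ^ (w + n + l)) :=
              mul_le_mul e5 c1 (abs_nonneg _) (by positivity)
          _ = 1 := by field_simp)
    rw [Ex_const hqL.sum_one] at h1
    refine h1.trans (le_of_eq ?_)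
    norm_num
  have hJr : 2 * K / η < J := hJ₂.trans_le (by exact_mod_cast (le_max_right _ _).trans hJ)
  rw [div_lt_iff₀ hη] at hJr
  linarith

end Pool.S6U
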