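import Pool.Agent.H32.S6U.UvbStmt
import Pool.Agent.H10.S6U.Out

/-!
# Regime beta: the block of two rows in one frame, the statement for one family
-/

set_option autoImplicit false

namespace Pool.S6U

open Finset Real
open Pool.Agent.H49.Ent Pool.Agent.H32.Dense Pool.STK Pool.KA Pool.KSAT Pool.K2S Pool.KS6

variable {J : ℕ}

/-- The labels of regime beta on an event: the side label with its plank of thickness `2 ^ (-N)`,
the own slope to `l` digits, known from the windows `w` and from the exact points, and the velocity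
along the fans to `l` digits, known from the exact points. -/
structure BetaL (F : Fam 3 J) (A : F.Ω → Prop) (ς : Fin 3 → Fin 3) (w l N : ℕ) (E C : ℝ)
    {Λ : Type} (κ : F.Ω → Λ) (pl : Λ → Pln) (al : F.Ω → ℝ) : Prop where
  kS : ∀ ω ω', A ω → A ω' → slam F w ω = slam F w ω' → κ ω = κ ω'
  kP : ∀ ω ω', A ω → A ω' → Fam.pt F ω = Fam.pt F ω' → κ ω = κ ω'
  pn : ∀ ω, A ω → |fn (ς 0) (ς 1) (ς 2) (pl (κ ω)).c (pl (κ ω)).s (F.x ω) -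
    fn (ς 0) (ς 1) (ς 2) (pl (κ ω)).c (pl (κ ω)).s
      (fun i => (pl (κ ω)).xb i + F.t ω * (pl (κ ω)).db i)| ≤ C / 2 ^ N
  bd : ∀ ω, A ω → |ald l al ω| ≤ E
  aS : ∀ ω ω', A ω → A ω' → slam F w ω = slam F w ω' → Uni.dg l al ω = Uni.dg l al ω'
  aP : ∀ ω ω', A ω → A ω' → Fam.pt F ω = Fam.pt F ω' → Uni.dg l al ω = Uni.dg l al ω'
  vP : ∀ ω ω', A ω → A ω' → Fam.pt F ω = Fam.pt F ω' →
    ⌊(2 : ℝ) ^ l * (F.d ω (ς 1) - ald l al ω * F.d ω (ς 0))⌋ =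
      ⌊(2 : ℝ) ^ l * (F.d ω' (ς 1) - ald l al ω' * F.d ω' (ς 0))⌋

/-- **(UVLB), one family, static boxes.** -/
def UvdStmt : Prop :=
  ∀ η E C : ℝ, 0 < η → 0 ≤ E → 0 ≤ C → ∃ h₀ : ℝ, 0 < h₀ ∧ ∀ κ₀ : ℝ, 0 < κ₀ → ∃ τ > 0,
    ∃ J₁ : ℕ, ∀ J ≥ J₁, ∀ (F : Fam 3 J) (A : F.Ω → Prop),
    F.Tr → F.Tm (τ * J) → F.Rb (τ * J) → Real.exp (-(τ * J)) ≤ Pe F.p A →
    ∀ (ς : Fin 3 → Fin 3), Function.Injective ς → ∀ w l n N : ℕ, w + n + l ≤ J →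
    ∀ (Λ : Type) (κ : F.Ω → Λ) (pl : Λ → Pln) (al : F.Ω → ℝ), BetaL F A ς w l N E C κ pl al →
    (∀ B : F.Ω → Prop, Sub B A → Real.exp (-(κ₀ * J)) * Pe F.p A ≤ Pe F.p B →
      ¬ TubB F (ς 0) (ς 1) l ⌊h₀ * J⌋₊ (ald l al) B) →
    2 * (n * Real.log 2) - η * J ≤
      CH (Pool.Agent.H49.Ent.cond F.p A True)
        (F.sbx ς (w + n) (w + n + l) N (ald l al) (fun ω => -(pl (κ ω)).s)
          (fun ω => -(pl (κ ω)).c))
        (fun ω => (F.sbx ς w (w + l) N (ald l al) (fun ω => -(pl (κ ω)).s)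
          (fun ω => -(pl (κ ω)).c) ω, (Uni.dg l al ω, (κ ω, F.W ω))))

end Pool.S6U
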