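import Pool.Agent.H32.S6U.Prj

/-!
# The cells of the projected family are visible, and its tubes
-/

set_option autoImplicit false

namespace Pool.S6U

open Finset Real
open Pool.Agent.H49.Ent Pool.Agent.H32.Dense Pool.STK Pool.KA Pool.KSAT Pool.K2S Pool.KS6
  Pool.KA.Win Pool.KA.TRC Pool.K2S.Rows

variable {J : ℕ}

/-- A function which is determined by another one, on an event. -/
lemma exists_fn {Ω α β : Type} (g : Ω → β) (f : Ω → α) (A : Ω → Prop) (a₀ : α)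
    (h : ∀ ω ω', A ω → A ω' → g ω = g ω' → f ω = f ω') :
    ∃ φ : β → α, (∀ ω, A ω → f ω = φ (g ω)) ∧ ∀ y, φ y = a₀ ∨ ∃ ω, A ω ∧ φ y = f ω := by
  classical
  refine ⟨fun y => if hy : ∃ ω, A ω ∧ g ω = y then f hy.choose else a₀, fun ω hω => ?_,
    fun y => ?_⟩
  · have hy : ∃ ω', A ω' ∧ g ω' = g ω := ⟨ω, hω, rfl⟩
    simp only [dif_pos hy]
    exact h _ _ hω hy.choose_spec.1 hy.choose_spec.2.symm
  · by_cases hy : ∃ ω, A ω ∧ g ω = y
    · exact Or.inr ⟨hy.choose, hy.choose_spec.1, by simp only [dif_pos hy]⟩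
    · exact Or.inl (by simp only [dif_neg hy])

section Near

variable (F : Fam 3 J) {La : Type} (kap : F.Ω → La) (pl : La → Pln) (i₀ iu : Fin 3) (w l : ℕ)

/-- Two samples with the same label, time and position at precision `P`. -/
lemma prj_near (hw : w ≤ J) {P j : ℕ} (hj : j + w + l ≤ P) {ω ω' : F.Ω} {E : ℝ} (hE : 0 ≤ E)
    (ha : |pd i₀ iu l (pl (kap ω)) (F.d ω)| ≤ 1) (ha' : |pd i₀ iu l (pl (kap ω')) (F.d ω')| ≤ 1)
    (he : |(pl (kap ω)).e| ≤ E) (hk : kap ω = kap ω') (hX : F.X P ω = F.X P ω')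
    (hT : F.T ω = F.T ω') (i : Fin 2) :
    |2 ^ j * (prj F kap pl i₀ iu w l).x ω i - 2 ^ j * (prj F kap pl i₀ iu w l).x ω' i| ≤
      1 + E := by
  have hx : ∀ k, |F.x ω k - F.x ω' k| ≤ 1 / 2 ^ P := fun k =>
    floor_close (n := P) (a := F.x ω k) (b := F.x ω' k) (congrFun hX k)
  have ht : F.t ω = F.t ω' := by
    unfold Fam.t
    rw [hT]
  have hP : (2 : ℝ) ^ j * 2 ^ (w + l) ≤ 2 ^ P := by
    rw [← pow_add]
    exact pow_le_pow_right₀ (by norm_num) (by omega)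
  have hP0 : (0 : ℝ) < 2 ^ P := by positivity
  match i with
  | 0 =>
    rw [prj_x0 F kap pl i₀ iu w l hw, prj_x0 F kap pl i₀ iu w l hw]
    have e1 : (2 : ℝ) ^ j * (2 ^ w * F.x ω i₀) - 2 ^ j * (2 ^ w * F.x ω' i₀) =
        2 ^ j * 2 ^ w * (F.x ω i₀ - F.x ω' i₀) := by ring
    rw [e1, abs_mul, abs_of_pos (by positivity)]
    have h1 : (2 : ℝ) ^ j * 2 ^ w ≤ 2 ^ P := by
      rw [← pow_add]
      exact pow_le_pow_right₀ (by norm_num) (by omega)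
    calc (2 : ℝ) ^ j * 2 ^ w * |F.x ω i₀ - F.x ω' i₀| ≤ 2 ^ P * (1 / 2 ^ P) :=
          mul_le_mul h1 (hx i₀) (abs_nonneg _) hP0.le
      _ = 1 := by field_simp
      _ ≤ 1 + E := by linarith
  | 1 =>
    rw [prj_x1 F kap pl i₀ iu w l hw ha, prj_x1 F kap pl i₀ iu w l hw ha']
    unfold px fu
    rw [← hk, ← ht]
    have e1 : (2 : ℝ) ^ j * (2 ^ (w + l) / 2 * (F.x ω iu - (pl (kap ω)).e * F.x ω i₀ -
        ((pl (kap ω)).xb iu + F.t ω * (pl (kap ω)).db iu - (pl (kap ω)).e *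
          ((pl (kap ω)).xb i₀ + F.t ω * (pl (kap ω)).db i₀)))) -
        2 ^ j * (2 ^ (w + l) / 2 * (F.x ω' iu - (pl (kap ω)).e * F.x ω' i₀ -
        ((pl (kap ω)).xb iu + F.t ω * (pl (kap ω)).db iu - (pl (kap ω)).e *
          ((pl (kap ω)).xb i₀ + F.t ω * (pl (kap ω)).db i₀)))) =
        2 ^ j * 2 ^ (w + l) / 2 * ((F.x ω iu - F.x ω' iu) -
          (pl (kap ω)).e * (F.x ω i₀ - F.x ω' i₀)) := by ring
    rw [e1, abs_mul, abs_of_pos (by positivity)]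
    have h1 : |(F.x ω iu - F.x ω' iu) - (pl (kap ω)).e * (F.x ω i₀ - F.x ω' i₀)| ≤
        (1 + E) * (1 / 2 ^ P) := by
      refine (abs_sub _ _).trans ?_
      rw [abs_mul]
      have h2 : |(pl (kap ω)).e| * |F.x ω i₀ - F.x ω' i₀| ≤ E * (1 / 2 ^ P) :=
        mul_le_mul he (hx i₀) (abs_nonneg _) hE
      have h3 := hx iu
      linarith
    calc (2 : ℝ) ^ j * 2 ^ (w + l) / 2 *
          |(F.x ω iu - F.x ω' iu) - (pl (kap ω)).e * (F.x ω i₀ - F.x ω' i₀)| ≤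
          2 ^ P / 2 * ((1 + E) * (1 / 2 ^ P)) :=
          mul_le_mul (by linarith) h1 (abs_nonneg _) (by positivity)
      _ = (1 + E) / 2 := by field_simp
      _ ≤ 1 + E := by linarith

variable {A : F.Ω → Prop}

/-- The cells of the positions are visible. -/
lemma prj_X_vis (hw : w ≤ J) {P j : ℕ} (hj : j + w + l ≤ P) {E : ℝ} (hE : 0 ≤ E)
    (hA : ∀ ω, A ω → |pd i₀ iu l (pl (kap ω)) (F.d ω)| ≤ 1 ∧ |(pl (kap ω)).e| ≤ E)
    {q : F.Ω → ℝ} (hq : IsLaw q) (hqA : ∀ ω, 0 < q ω → A ω) {β : Type} (V : F.Ω → β)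
    (hV : ∀ ω ω', 0 < q ω → 0 < q ω' → V ω = V ω' →
      kap ω = kap ω' ∧ F.X P ω = F.X P ω' ∧ F.T ω = F.T ω') :
    CH q ((prj F kap pl i₀ iu w l).X j) V ≤ 2 * Real.log (2 * E + 9) := by
  have h1 := CH_le_vec hq.nonneg hq.sum_one ((prj F kap pl i₀ iu w l).X j) V (fun _ => E + 4) (by
    intro ω ω' p1 p2 e k
    obtain ⟨a1, a2, a3⟩ := hV ω ω' p1 p2 e
    have := prj_near F kap pl i₀ iu w l hw hj hE (hA ω (hqA ω p1)).1 (hA ω' (hqA ω' p2)).1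
      (hA ω (hqA ω p1)).2 a1 a2 a3 k
    refine (floor_diff this).trans (by linarith))
  rw [Ex_const hq.sum_one] at h1
  have e1 : 2 * (E + 4) + 1 = 2 * E + 9 := by ring
  rw [e1] at h1
  exact_mod_cast h1

/-- The cells at the beginning of the windows are visible. -/
lemma prj_c_vis (hw : w ≤ J) {P j : ℕ} (hj : j + w + l ≤ P) (hP : P ≤ J) {E : ℝ} (hE : 0 ≤ E)
    (hA : ∀ ω, A ω → |pd i₀ iu l (pl (kap ω)) (F.d ω)| ≤ 1 ∧ |(pl (kap ω)).e| ≤ E)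
    {q : F.Ω → ℝ} (hq : IsLaw q) (hqA : ∀ ω, 0 < q ω → A ω) {β : Type} (V : F.Ω → β)
    (hV : ∀ ω ω', 0 < q ω → 0 < q ω' → V ω = V ω' →
      kap ω = kap ω' ∧ F.X P ω = F.X P ω' ∧ F.W ω = F.W ω') :
    CH q ((prj F kap pl i₀ iu w l).c j) V ≤ 2 * Real.log (2 * E + 9) := by
  have hT : ∀ ω ω', F.W ω = F.W ω' → F.T ω = F.T ω' ∧ F.Z ω = F.Z ω' := fun ω ω' e =>
    Prod.ext_iff.mp e
  have h1 := CH_le_vec hq.nonneg hq.sum_one
    (fun ω => fl j ((prj F kap pl i₀ iu w l).x1 j ω)) V (fun _ => E + 4) (by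
    intro ω ω' p1 p2 e k
    obtain ⟨a1, a2, a3⟩ := hV ω ω' p1 p2 e
    have h2 := prj_near F kap pl i₀ iu w l hw hj hE (hA ω (hqA ω p1)).1 (hA ω' (hqA ω' p2)).1
      (hA ω (hqA ω p1)).2 a1 a2 (hT ω ω' a3).1 k
    have h3 := x1_near (prj F kap pl i₀ iu w l) (g := j) (by omega) ω k
    have h4 := x1_near (prj F kap pl i₀ iu w l) (g := j) (by omega) ω' k
    have h5 : |2 ^ j * (prj F kap pl i₀ iu w l).x1 j ω k -
        2 ^ j * (prj F kap pl i₀ iu w l).x1 j ω' k| ≤ E + 3 := by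
      rw [abs_le] at h2 h3 h4 ⊢
      constructor <;> linarith [h2.1, h2.2, h3.1, h3.2, h4.1, h4.2]
    exact (floor_diff h5).trans (by linarith))
  rw [Ex_const hq.sum_one] at h1
  have e1 : 2 * (E + 4) + 1 = 2 * E + 9 := by ring
  rw [e1] at h1
  have h2 : CH q ((prj F kap pl i₀ iu w l).c j) V ≤
      CH q (fun ω => fl j ((prj F kap pl i₀ iu w l).x1 j ω)) V := by
    refine CH_mono_left hq.nonneg fun ω ω' p1 p2 e => ?_
    have e1 := Prod.ext_iff.mp e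
    obtain ⟨a1, -, a3⟩ := hV ω ω' p1 p2 e1.2
    obtain ⟨b1, b2⟩ := hT ω ω' a3
    have c1 : (prj F kap pl i₀ iu w l).T1 j ω = (prj F kap pl i₀ iu w l).T1 j ω' := by
      unfold Fam.T1 prj
      simp only [b1]
    have c2 : (prj F kap pl i₀ iu w l).Z ω = (prj F kap pl i₀ iu w l).Z ω' := by
      unfold prj Fam.T1
      simp only [a1, b1, b2]
    exact Prod.ext (Prod.ext c1 e1.1) c2
  refine h2.trans ?_
  exact_mod_cast h1

/-- The tubes of the projected family which are functions of the exact point. -/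
lemma tub_of_fn {A B : F.Ω → Prop} (hB : Sub B A)
    (hkpt : ∀ ω ω', A ω → A ω' → Fam.pt F ω = Fam.pt F ω' → kap ω = kap ω')
    (hA : ∀ ω, A ω → |pd i₀ iu l (pl (kap ω)) (F.d ω)| ≤ 1)
    {h : ℕ}
    (hfn : Fn (prj F kap pl i₀ iu w l).d (Fam.pt F)
      (fun D (s : (Fin 2 → ℝ) × (Fin 1 → Fin 2 → ℝ)) =>
        ∃ c : Fin 1 → ℝ, ∀ j, |D j - s.1 j - ∑ i, c i * s.2 i j| ≤ 4 / 2 ^ (h + 3)) B) :
    TubB F i₀ iu l h (fun ω => (pl (kap ω)).e) B := by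
  classical
  obtain ⟨ζ, hζ⟩ := hfn
  obtain ⟨φ, hφ, -⟩ := exists_fn (Fam.pt F) (fun ω => pl (kap ω)) A
    (⟨0, 0, 0, 0, 0⟩ : Pln) (fun ω ω' p1 p2 e => by rw [hkpt ω ω' p1 p2 e])
  obtain ⟨M, hM⟩ : ∃ M : (Fin 3 → ℤ) × (ℕ × F.ζ) → ℝ,
      M = fun y => max |(ζ y).2 0 0| |(ζ y).2 0 1| := ⟨_, rfl⟩
  obtain ⟨N, hN⟩ : ∃ N : (Fin 3 → ℤ) × (ℕ × F.ζ) → Fin 2 → ℝ,
      N = fun y => if M y = 0 then ![1, 0] else ![(ζ y).2 0 1 / M y, -((ζ y).2 0 0 / M y)] :=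
    ⟨_, rfl⟩
  have hM0 : ∀ y, 0 ≤ M y := fun y => by rw [hM]; exact (abs_nonneg _).trans (le_max_left _ _)
  -- the normal vector
  have hN1 : ∀ y, |N y 0| ≤ 1 ∧ |N y 1| ≤ 1 ∧ (1 ≤ |N y 0| ∨ 1 ≤ |N y 1|) ∧
      N y 0 * (ζ y).2 0 0 + N y 1 * (ζ y).2 0 1 = 0 := by
    intro y
    have hm : M y = max |(ζ y).2 0 0| |(ζ y).2 0 1| := by rw [hM]
    by_cases h0 : M y = 0
    · have hNy : N y = ![1, 0] := by rw [hN]; exact if_pos h0
      have h1 : |(ζ y).2 0 0| ≤ 0 := by rw [← h0, hm]; exact le_max_left _ _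
      have h2 : (ζ y).2 0 0 = 0 := abs_nonpos_iff.1 h1
      rw [hNy]
      simp [h2]
    · have hNy : N y = ![(ζ y).2 0 1 / M y, -((ζ y).2 0 0 / M y)] := by rw [hN]; exact if_neg h0
      have hpos : 0 < M y := lt_of_le_of_ne (hM0 y) (Ne.symm h0)
      have h1 : |(ζ y).2 0 0| ≤ M y := by rw [hm]; exact le_max_left _ _
      have h2 : |(ζ y).2 0 1| ≤ M y := by rw [hm]; exact le_max_right _ _
      rw [hNy]
      simp only [Matrix.cons_val_zero, Matrix.cons_val_one, abs_neg, abs_div, abs_of_pos hpos]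
      refine ⟨(div_le_one hpos).2 h2, (div_le_one hpos).2 h1, ?_, ?_⟩
      · rcases le_total |(ζ y).2 0 0| |(ζ y).2 0 1| with h3 | h3
        · left
          rw [le_div_iff₀ hpos, one_mul, hm, max_eq_right h3]
        · right
          rw [le_div_iff₀ hpos, one_mul, hm, max_eq_left h3]
      · field_simp
        ring
  refine ⟨fun y => N y 0, fun y => N y 1 / 2, fun y =>
    N y 0 * (ζ y).1 0 + N y 1 * (ζ y).1 1 + N y 1 / 2 * (2 ^ l * fu i₀ iu (φ y).e (φ y).db),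
    fun ω _ => ?_, fun ω hω => ?_⟩
  · rcases (hN1 (Fam.pt F ω)).2.2.1 with h1 | h1
    · left
      linarith
    · right
      rw [abs_div, abs_of_pos (by norm_num : (0 : ℝ) < 2)]
      linarith
  · obtain ⟨c, hc⟩ := hζ ω hω
    obtain ⟨y, hy⟩ : ∃ y, y = Fam.pt F ω := ⟨_, rfl⟩
    have hpl : pl (kap ω) = φ y := by rw [hy]; exact hφ ω (hB ω hω)
    have hpd : |pd i₀ iu l (φ y) (F.d ω)| ≤ 1 := by rw [← hpl]; exact hA ω (hB ω hω)
    have hc0 := hc 0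
    have hc1 := hc 1
    have d0 : (prj F kap pl i₀ iu w l).d ω 0 = F.d ω i₀ := rfl
    have d1 : (prj F kap pl i₀ iu w l).d ω 1 = pd i₀ iu l (φ y) (F.d ω) := by
      have : (prj F kap pl i₀ iu w l).d ω 1 = trn (pd i₀ iu l (pl (kap ω)) (F.d ω)) := rfl
      rw [this, hpl, trn_eq hpd]
    rw [d0, Fin.sum_univ_one] at hc0
    rw [d1, Fin.sum_univ_one] at hc1
    simp only [← hy, hpl] at hc0 hc1 ⊢
    obtain ⟨n1, n2, -, n3⟩ := hN1 y
    have key : N y 0 * F.d ω i₀ + N y 1 / 2 * (2 ^ l * (F.d ω iu - (φ y).e * F.d ω i₀)) -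
        (N y 0 * (ζ y).1 0 + N y 1 * (ζ y).1 1 +
          N y 1 / 2 * (2 ^ l * fu i₀ iu (φ y).e (φ y).db)) =
        N y 0 * (F.d ω i₀ - (ζ y).1 0 - c 0 * (ζ y).2 0 0) +
          N y 1 * (pd i₀ iu l (φ y) (F.d ω) - (ζ y).1 1 - c 0 * (ζ y).2 0 1) +
          c 0 * (N y 0 * (ζ y).2 0 0 + N y 1 * (ζ y).2 0 1) := by
      unfold pd fu
      ring
    rw [key, n3, mul_zero, add_zero]
    refine (abs_add_le _ _).trans ?_
    rw [abs_mul, abs_mul]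
    have h1 : |N y 0| * |F.d ω i₀ - (ζ y).1 0 - c 0 * (ζ y).2 0 0| ≤ 1 * (4 / 2 ^ (h + 3)) :=
      mul_le_mul n1 hc0 (abs_nonneg _) (by norm_num)
    have h2 : |N y 1| * |pd i₀ iu l (φ y) (F.d ω) - (ζ y).1 1 - c 0 * (ζ y).2 0 1| ≤
        1 * (4 / 2 ^ (h + 3)) :=
      mul_le_mul n2 hc1 (abs_nonneg _) (by norm_num)
    have h3 : (1 : ℝ) * (4 / 2 ^ (h + 3)) + 1 * (4 / 2 ^ (h + 3)) = 1 / 2 ^ h := by
      rw [pow_add]
      field_simp
      norm_num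
    linarith

end Near

end Pool.S6U
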